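import Pool.Agent.Lib_MP_42fe4d_lc.TM.Lite
import Pool.Agent.Lib_MP_42f051_lc.Bin

/-!
Binary natural numbers in the calculus of polynomial time functions.

`BN` is a copy of `ℕ` whose elements are represented by their binary code
`Computability.encodeNat` (lowest bit first, no zeros at the end), which is also the code
`N487b59b3.bitEncode` of the problem's prelude.
-/

namespace Pool.Agent.PartSep.TM

open Prog Rep Computability Pool.Agent.FairDiv

set_option synthInstance.maxSize 2000

variable {E F G H : Type} [Rep E] [Rep F] [Rep G] [Rep H]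

/-- Natural numbers, represented in binary. -/
@[ext] structure BN where
  /-- the value -/
  val : ℕ

instance : Inhabited BN := ⟨⟨0⟩⟩

/-- the binary code -/
def bcode (n : ℕ) : List Sym := (encodeNat n).map bs

instance : Rep BN where
  ix := Unit
  rep n _ := bcode n.val

/-! ### Values of lists of bits -/

theorem valB_lt (l : List Bool) : valB l < 2 ^ l.length := by
  induction l with
  | nil => simp [valB]
  | cons b l ih =>
    simp only [valB, List.length_cons, pow_succ]
    have : b.toNat ≤ 1 := Bool.toNat_le b
    omega

theorem valB_strip (l : List Bool) : valB (strip l) = valB l := by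
  induction l with
  | nil => rfl
  | cons b l ih =>
    rw [strip_cons]
    by_cases h : strip l = [] ∧ b = false
    · rw [if_pos h]
      have h1 : valB l = 0 := by rw [← ih, h.1]; rfl
      simp [valB, h1, h.2]
    · rw [if_neg h]
      simp only [valB, ih]

theorem valB_encodeNat (n : ℕ) : valB (encodeNat n) = n := by
  have h1 : valB (bitsN n n) = n := valB_bitsN Nat.lt_two_pow_self
  have h2 := encodeNat_valB (bitsN n n)
  rw [h1] at h2
  rw [h2, valB_strip, h1]

theorem encodeNat_length (n : ℕ) : (encodeNat n).length = Nat.size n := by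
  have key : ∀ l : List Bool, (strip l).length = Nat.size (valB l) := by
    intro l
    induction l with
    | nil => simp [strip, valB]
    | cons b l ih =>
      have e : valB (b :: l) = Nat.bit b (valB l) := by
        rw [Nat.bit_val]
        simp only [valB]
        ring
      rw [strip_cons, e]
      by_cases h : strip l = [] ∧ b = false
      · have h1 : valB l = 0 := by rw [← valB_strip, h.1]; rfl
        rw [if_pos h, h1, h.2]
        simp
      · rw [if_neg h, List.length_cons, ih, Nat.size_bit]
        intro h2
        rw [← e] at h2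
        apply h
        cases b with
        | true => simp [valB] at h2
        | false =>
          simp only [valB, Bool.toNat_false, zero_add] at h2
          refine ⟨?_, rfl⟩
          have h3 : valB l = 0 := by omega
          rw [h3] at ih
          simpa using ih
  have h2 := encodeNat_valB (encodeNat n)
  rw [valB_encodeNat] at h2
  have h3 := key (encodeNat n)
  rw [← h2, valB_encodeNat] at h3
  exact h3

/-- the value of a string of symbols -/
def valS (l : List Sym) : ℕ := valB (l.map sb)

theorem map_sb_bs (l : List Bool) : (l.map bs).map sb = l := by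
  rw [List.map_map]
  have : sb ∘ bs = id := by funext b; exact sb_bs b
  rw [this, List.map_id]

theorem valS_bcode (n : ℕ) : valS (bcode n) = n := by
  unfold valS bcode
  rw [map_sb_bs, valB_encodeNat]

theorem valS_nil : valS [] = 0 := rfl

theorem valS_cons (a : Sym) (l : List Sym) : valS (a :: l) = (sb a).toNat + 2 * valS l := rfl

theorem valS_append (l m : List Sym) : valS (l ++ m) = valS l + 2 ^ l.length * valS m := by
  unfold valS
  rw [List.map_append, valB_append, List.length_map]

theorem valS_lt (l : List Sym) : valS l < 2 ^ l.length := by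
  have := valB_lt (l.map sb)
  rwa [List.length_map] at this

theorem valS_replicate (n : ℕ) : valS (List.replicate n Sym.o) = 0 := by
  induction n with
  | zero => rfl
  | succ n ih => rw [List.replicate_succ, valS_cons, ih]; rfl

theorem bcode_length (n : ℕ) : (bcode n).length = Nat.size n := by
  unfold bcode
  rw [List.length_map, encodeNat_length]

theorem size_BN (n : BN) : size n = Nat.size n.val := by
  change ∑ _i : Unit, (bcode n.val).length = _
  simp [bcode_length]

theorem size_BN_mono {m n : BN} (h : m.val ≤ n.val) : size m ≤ size n := by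
  rw [size_BN, size_BN]
  exact Nat.size_le_size h

theorem size_BN_le {m : BN} {k : ℕ} (h : m.val < 2 ^ k) : size m ≤ k := by
  rw [size_BN]
  exact Nat.size_le.2 h

theorem lt_two_pow_size (n : BN) : n.val < 2 ^ size n := by
  rw [size_BN]
  exact Nat.lt_size_self _

theorem size_BN_add (a b c : ℕ) (h : c ≤ a + b) : size (⟨c⟩ : BN) ≤ size (⟨a⟩ : BN) +
    size (⟨b⟩ : BN) + 1 := by
  apply size_BN_le
  have h1 := lt_two_pow_size ⟨a⟩
  have h2 := lt_two_pow_size ⟨b⟩
  have h3 : 2 ^ size (⟨a⟩ : BN) ≤ 2 ^ (size (⟨a⟩ : BN) + size (⟨b⟩ : BN)) :=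
    Nat.pow_le_pow_right (by norm_num) (by omega)
  have h4 : 2 ^ size (⟨b⟩ : BN) ≤ 2 ^ (size (⟨a⟩ : BN) + size (⟨b⟩ : BN)) :=
    Nat.pow_le_pow_right (by norm_num) (by omega)
  simp only at h1 h2 ⊢
  rw [pow_succ]
  omega

theorem size_BN_mul (a b c : ℕ) (h : c ≤ a * b) : size (⟨c⟩ : BN) ≤ size (⟨a⟩ : BN) +
    size (⟨b⟩ : BN) := by
  by_cases h0 : b = 0
  · subst h0
    have hc : c = 0 := by simpa using h
    subst hc
    rw [size_BN (⟨0⟩ : BN)]
    simp
  apply size_BN_le
  have h1 := lt_two_pow_size ⟨a⟩
  have h2 := lt_two_pow_size ⟨b⟩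
  simp only at h1 h2 ⊢
  rw [pow_add]
  calc c ≤ a * b := h
    _ < 2 ^ size (⟨a⟩ : BN) * b := Nat.mul_lt_mul_of_pos_right h1 (Nat.pos_of_ne_zero h0)
    _ ≤ _ := Nat.mul_le_mul_left _ h2.le

/-! ### Conversions -/

/-- the bits of a number -/
theorem FP.bcode {n : E → BN} (hn : FP n) : FP (fun x => bcode (n x).val) := hn.comp_rep ()

/-- one step of the removal of zeros at the end -/
def stripStep (a : Sym) (s : Bool × List Sym) : Bool × List Sym :=
  if s.1 || decide (a = Sym.i) then (true, bs (sb a) :: s.2) else s

/-- the normal form of a string of bits -/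
def stripS (l : List Sym) : List Sym :=
  (l.reverse.foldl (fun s a => stripStep a s) (false, [])).2

theorem stripS_eq (l : List Sym) : stripS l = (strip (l.map sb)).map bs := by
  unfold stripS strip
  rw [← List.map_reverse]
  generalize l.reverse = m
  have key : ∀ (m : List Sym) (b : Bool) (u : List Bool),
      m.foldl (fun s a => stripStep a s) (b, u.map bs) =
      (((m.map sb).foldl (fun (s : Bool × List Bool) a => if s.1 || a then (true, a :: s.2) else s)
        (b, u)).1, (((m.map sb).foldl (fun (s : Bool × List Bool) a =>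
          if s.1 || a then (true, a :: s.2) else s) (b, u)).2).map bs) := by
    intro m
    induction m with
    | nil => intro b u; rfl
    | cons a m ih =>
      intro b u
      simp only [List.foldl_cons, List.map_cons]
      have h1 : decide (a = Sym.i) = sb a := rfl
      unfold stripStep
      rw [h1]
      by_cases h : (b || sb a) = true
      · simp only [h, if_true]
        exact ih true (sb a :: u)
      · simp only [h]
        exact ih b u
  have := key m false []
  simp only [List.map_nil] at this
  rw [this]

theorem FP.stripS {l : E → List Sym} (hl : FP l) : FP (fun x => stripS (l x)) := by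
  have h1 : ∀ a : Sym, FP (fun y : E × (Bool × List Sym) => stripStep a y.2) := fun a =>
    FP.ite (FP.or (FP.comp FP.fst FP.snd) (FP.const _))
      (FP.pair (FP.const _) (FP.cons _ (FP.comp FP.snd FP.snd))) FP.snd
  have h2 : ∀ (a : Sym) (x : E) (s : Bool × List Sym),
      size (stripStep a s) ≤ size s + (2 : Polynomial ℕ).eval (size x) := by
    intro a x s
    have h2 : (2 : Polynomial ℕ).eval (size x) = 2 := by simp
    rw [h2]
    unfold stripStep
    split
    · rw [size_pair, size_pair, size_list, size_list, List.length_cons]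
      have := size_bool true
      simp only
      omega
    · omega
  have h3 := FP.foldl_growth (FP.reverse hl)
    (init := fun _ => (false, ([] : List Sym))) (FP.const _)
    (step := fun a y => stripStep a y.2) h1 2 h2
  exact (FP.comp FP.snd h3).congr (fun _ => rfl)

/-- The number with given bits. -/
theorem FP.ofBits {l : E → List Sym} (hl : FP l) : FP (fun x => (⟨valS (l x)⟩ : BN)) := by
  apply FP.pi
  intro j
  refine (FP.stripS hl).congr (fun x => ?_)
  change _ = TM.bcode (valS (l x))
  rw [stripS_eq]
  unfold TM.bcode valS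
  rw [encodeNat_valB]

/-! ### Addition -/

/-- the sum of three bits -/
def addStep (a : Sym) (s : List Sym × (Bool × List Sym)) : List Sym × (Bool × List Sym) :=
  (s.1.tail, (((sb a) && decide (s.1.head? = some Sym.i)) || ((s.2.1) &&
    ((sb a) || decide (s.1.head? = some Sym.i))),
    bs (((sb a) != decide (s.1.head? = some Sym.i)) != s.2.1) :: s.2.2))

theorem addStep_mk (a : Sym) (m : List Sym) (c : Bool) (acc : List Sym) :
    addStep a (m, (c, acc)) = (m.tail, (((sb a) && decide (m.head? = some Sym.i)) || (c &&
      ((sb a) || decide (m.head? = some Sym.i))),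
      bs (((sb a) != decide (m.head? = some Sym.i)) != c) :: acc)) := rfl

/-- the value of the first symbol -/
theorem valS_eq_head (m : List Sym) :
    valS m = (decide (m.head? = some Sym.i)).toNat + 2 * valS m.tail := by
  cases m with
  | nil => rfl
  | cons a m =>
    rw [valS_cons]
    simp only [List.head?_cons, List.tail_cons, Option.some.injEq]
    rfl

theorem addStep_inv (L : List Sym) : ∀ (m : List Sym) (c : Bool) (acc : List Sym),
    valS (L.foldl (fun s a => addStep a s) (m, (c, acc))).2.2.reverse +
      2 ^ (L.foldl (fun s a => addStep a s) (m, (c, acc))).2.2.length *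
      (valS (L.foldl (fun s a => addStep a s) (m, (c, acc))).1 +
        (L.foldl (fun s a => addStep a s) (m, (c, acc))).2.1.toNat) =
    valS acc.reverse + 2 ^ acc.length * (valS L + valS m + c.toNat) := by
  induction L with
  | nil => intro m c acc; simp [valS_nil]
  | cons a L ih =>
    intro m c acc
    rw [List.foldl_cons, addStep_mk, ih]
    rw [valS_cons, valS_eq_head m]
    simp only [List.reverse_cons, valS_append, List.length_reverse, List.length_cons, pow_succ]
    have e1 : valS [bs (((sb a) != decide (m.head? = some Sym.i)) != c)] =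
      (((sb a) != decide (m.head? = some Sym.i)) != c).toNat := by
      rw [valS_cons, sb_bs, valS_nil, Nat.mul_zero, Nat.add_zero]
    rw [e1]
    generalize sb a = u
    generalize decide (m.head? = some Sym.i) = v
    cases u <;> cases v <;> cases c <;>
      simp only [Bool.and_true, Bool.and_false, Bool.or_true, Bool.or_false, Bool.toNat_true,
        Bool.toNat_false, Bool.bne_true, Bool.bne_false, Bool.not_true, Bool.not_false,
        Bool.true_bne, Bool.false_bne, Bool.true_and, Bool.false_and, Bool.true_or,
        Bool.false_or] <;> ring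

theorem addStep_length (L : List Sym) : ∀ (m : List Sym) (c : Bool) (acc : List Sym),
    (L.foldl (fun s a => addStep a s) (m, (c, acc))).2.2.length = L.length + acc.length := by
  induction L with
  | nil => intro m c acc; simp
  | cons a L ih =>
    intro m c acc
    rw [List.foldl_cons, addStep_mk, ih]
    simp only [List.length_cons]
    omega

/-- addition of strings of bits -/
def addS (l m : List Sym) : List Sym :=
  ((l ++ List.replicate (m.length + 1) Sym.o).foldl (fun s a => addStep a s)
    (m, (false, []))).2.2.reverse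

theorem valS_addS (l m : List Sym) : valS (addS l m) = valS l + valS m := by
  have h := addStep_inv (l ++ List.replicate (m.length + 1) Sym.o) m false []
  have hl := addStep_length (l ++ List.replicate (m.length + 1) Sym.o) m false []
  rw [hl] at h
  simp only [List.reverse_nil, valS_nil, List.length_nil, pow_zero, Bool.toNat_false, add_zero,
    zero_add, one_mul, valS_append, valS_replicate, mul_zero, List.length_append,
    List.length_replicate] at h
  have h1 := valS_lt l
  have h2 := valS_lt m
  have h3 : 2 ^ l.length ≤ 2 ^ (l.length + m.length) :=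
    Nat.pow_le_pow_right (by norm_num) (by omega)
  have h4 : 2 ^ m.length ≤ 2 ^ (l.length + m.length) :=
    Nat.pow_le_pow_right (by norm_num) (by omega)
  have h5 : 2 ^ (l.length + (m.length + 1)) = 2 * 2 ^ (l.length + m.length) := by
    rw [← pow_succ']
    congr 1
  rw [h5] at h
  unfold addS
  generalize (valS ((l ++ List.replicate (m.length + 1) Sym.o).foldl (fun s a => addStep a s)
    (m, (false, []))).1 + ((l ++ List.replicate (m.length + 1) Sym.o).foldl
      (fun s a => addStep a s) (m, (false, []))).2.1.toNat) = w at h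
  rcases Nat.eq_zero_or_pos w with hw | hw
  · rw [hw] at h
    simpa using h
  · exfalso
    have h6 : 2 * 2 ^ (l.length + m.length) * 1 ≤ 2 * 2 ^ (l.length + m.length) * w :=
      Nat.mul_le_mul_left _ hw
    omega

theorem FP.headI {l : E → List Sym} (hl : FP l) :
    FP (fun x => decide ((l x).head? = some Sym.i)) := FP.headIs hl Sym.i

theorem FP.bsOf {b : E → Bool} (hb : FP b) : FP (fun x => [bs (b x)]) :=
  (FP.ite hb (FP.const [Sym.i]) (FP.const [Sym.o])).congr (fun x => by cases b x <;> rfl)

theorem FP.consB {b : E → Bool} (hb : FP b) {l : E → List Sym} (hl : FP l) :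
    FP (fun x => bs (b x) :: l x) :=
  (FP.append (FP.bsOf hb) hl).congr (fun _ => rfl)

theorem FP.addStep (a : Sym) :
    FP (fun y : E × (List Sym × (Bool × List Sym)) => addStep a y.2) := by
  have h1 : FP (fun y : E × (List Sym × (Bool × List Sym)) => y.2.1) := FP.comp FP.fst FP.snd
  have h2 : FP (fun y : E × (List Sym × (Bool × List Sym)) => y.2.2.1) :=
    FP.comp (f := fun y : E × (List Sym × (Bool × List Sym)) => y.2.2) FP.fst
      (FP.comp FP.snd FP.snd)
  have h3 : FP (fun y : E × (List Sym × (Bool × List Sym)) => y.2.2.2) :=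
    FP.comp (f := fun y : E × (List Sym × (Bool × List Sym)) => y.2.2) FP.snd
      (FP.comp FP.snd FP.snd)
  exact FP.pair (FP.tail h1) (FP.pair (FP.or (FP.and (FP.const _) (FP.headI h1))
    (FP.and h2 (FP.or (FP.const _) (FP.headI h1))))
    (FP.consB (FP.bne (FP.bne (FP.const _) (FP.headI h1)) h2) h3))

theorem size_bool_eq (b : Bool) : size b = b.toNat := by
  change ∑ _i : Unit, (if b then [Sym.i] else []).length = _
  cases b <;> simp

theorem FP.addS {l m : E → List Sym} (hl : FP l) (hm : FP m) : FP (fun x => addS (l x) (m x)) := by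
  have h2 : ∀ (a : Sym) (x : E) (s : List Sym × (Bool × List Sym)),
      size (TM.addStep a s) ≤ size s + (2 : Polynomial ℕ).eval (size x) := by
    intro a x s
    have h2 : (2 : Polynomial ℕ).eval (size x) = 2 := by simp
    rw [h2]
    unfold TM.addStep
    rw [size_pair, size_pair, size_list, size_list, List.length_cons, size_pair, size_pair,
      size_list, size_list]
    have h3 := size_bool (((sb a) && decide (s.1.head? = some Sym.i)) || ((s.2.1) &&
      ((sb a) || decide (s.1.head? = some Sym.i))))
    simp only [List.length_tail] at *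
    omega
  have h3 := FP.foldl_growth (FP.append hl (FP.subst (FP.addConst (FP.length hm) 1).unary
    (fun _ => [Sym.o])))
    (init := fun x => (m x, (false, ([] : List Sym)))) (FP.pair hm (FP.const _))
    (step := fun a y => TM.addStep a y.2) (fun a => FP.addStep a) 2 h2
  refine (FP.reverse (FP.comp FP.snd (FP.comp FP.snd h3))).congr (fun x => ?_)
  unfold TM.addS
  have e : (List.replicate ((m x).length + 1) Sym.i).flatMap (fun _ => [Sym.o]) =
      List.replicate ((m x).length + 1) Sym.o := by
    generalize (m x).length + 1 = n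
    induction n with
    | zero => rfl
    | succ n ih => rw [List.replicate_succ, List.flatMap_cons, ih]; rfl
  rw [e]

theorem FP.bAdd {f g : E → BN} (hf : FP f) (hg : FP g) :
    FP (fun x => (⟨(f x).val + (g x).val⟩ : BN)) :=
  (FP.ofBits (FP.addS hf.bcode hg.bcode)).congr (fun x => by
    rw [valS_addS, valS_bcode, valS_bcode])

/-! ### Subtraction and comparison -/

/-- the difference of two bits and a borrow -/
def subStep (a : Sym) (s : List Sym × (Bool × List Sym)) : List Sym × (Bool × List Sym) :=
  (s.1.tail, ((!(sb a) && decide (s.1.head? = some Sym.i)) || ((s.2.1) &&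
    (!(sb a) || decide (s.1.head? = some Sym.i))),
    bs (((sb a) != decide (s.1.head? = some Sym.i)) != s.2.1) :: s.2.2))

theorem subStep_mk (a : Sym) (m : List Sym) (c : Bool) (acc : List Sym) :
    subStep a (m, (c, acc)) = (m.tail, ((!(sb a) && decide (m.head? = some Sym.i)) || (c &&
      (!(sb a) || decide (m.head? = some Sym.i))),
      bs (((sb a) != decide (m.head? = some Sym.i)) != c) :: acc)) := rfl

theorem subStep_inv (L : List Sym) : ∀ (m : List Sym) (c : Bool) (acc : List Sym),
    (valS (L.foldl (fun s a => subStep a s) (m, (c, acc))).2.2.reverse : ℤ) -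
      2 ^ (L.foldl (fun s a => subStep a s) (m, (c, acc))).2.2.length *
      (valS (L.foldl (fun s a => subStep a s) (m, (c, acc))).1 +
        ((L.foldl (fun s a => subStep a s) (m, (c, acc))).2.1.toNat : ℕ)) =
    valS acc.reverse + 2 ^ acc.length * (valS L - valS m - (c.toNat : ℕ)) := by
  induction L with
  | nil => intro m c acc; simp [valS_nil]; ring
  | cons a L ih =>
    intro m c acc
    rw [List.foldl_cons, subStep_mk, ih]
    rw [valS_cons, valS_eq_head m]
    simp only [List.reverse_cons, valS_append, List.length_reverse, List.length_cons, pow_succ]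
    have e1 : valS [bs (((sb a) != decide (m.head? = some Sym.i)) != c)] =
      (((sb a) != decide (m.head? = some Sym.i)) != c).toNat := by
      rw [valS_cons, sb_bs, valS_nil, Nat.mul_zero, Nat.add_zero]
    rw [e1]
    push_cast
    generalize sb a = u
    generalize decide (m.head? = some Sym.i) = v
    cases u <;> cases v <;> cases c <;>
      simp only [Bool.and_true, Bool.and_false, Bool.or_true, Bool.or_false, Bool.toNat_true,
        Bool.toNat_false, Bool.bne_true, Bool.bne_false, Bool.not_true, Bool.not_false,
        Bool.true_bne, Bool.false_bne, Bool.true_and, Bool.false_and, Bool.true_or,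
        Bool.false_or, Nat.cast_zero, Nat.cast_one] <;> ring

theorem subStep_length (L : List Sym) : ∀ (m : List Sym) (c : Bool) (acc : List Sym),
    (L.foldl (fun s a => subStep a s) (m, (c, acc))).2.2.length = L.length + acc.length ∧
    (L.foldl (fun s a => subStep a s) (m, (c, acc))).1 = m.drop L.length := by
  induction L with
  | nil => intro m c acc; simp
  | cons a L ih =>
    intro m c acc
    rw [List.foldl_cons, subStep_mk]
    refine ⟨?_, ?_⟩
    · rw [(ih _ _ _).1]
      simp only [List.length_cons]
      omega
    · rw [(ih _ _ _).2, List.length_cons]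
      rw [← List.drop_one, List.drop_drop]
      congr 1
      omega

/-- subtraction of strings of bits: the borrow and the difference -/
def subS (l m : List Sym) : Bool × List Sym :=
  (((l ++ List.replicate m.length Sym.o).foldl (fun s a => subStep a s)
    (m, (false, []))).2.1,
  ((l ++ List.replicate m.length Sym.o).foldl (fun s a => subStep a s)
    (m, (false, []))).2.2.reverse)

theorem subS_spec (l m : List Sym) :
    ((subS l m).1 = true ↔ valS l < valS m) ∧
    (valS m ≤ valS l → valS (subS l m).2 = valS l - valS m) := by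
  have h := subStep_inv (l ++ List.replicate m.length Sym.o) m false []
  obtain ⟨hl, hd⟩ := subStep_length (l ++ List.replicate m.length Sym.o) m false []
  have hd' : ((l ++ List.replicate m.length Sym.o).foldl (fun s a => subStep a s)
    (m, (false, []))).1 = [] := by
    rw [hd]
    apply List.drop_eq_nil_of_le
    simp
  rw [hl, hd'] at h
  simp only [List.reverse_nil, valS_nil, List.length_nil, pow_zero, Bool.toNat_false, add_zero,
    zero_add, one_mul, valS_append, valS_replicate, mul_zero, Nat.cast_zero, sub_zero] at h
  have hlt := valS_lt (subS l m).2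
  have hlen : (subS l m).2.length = (l ++ List.replicate m.length Sym.o).length := by
    unfold subS
    simp only [List.length_reverse, hl, List.length_nil, add_zero]
  rw [hlen] at hlt
  have e1 : (subS l m).1 = ((l ++ List.replicate m.length Sym.o).foldl (fun s a => subStep a s)
    (m, (false, []))).2.1 := rfl
  have e2 : (subS l m).2 = ((l ++ List.replicate m.length Sym.o).foldl (fun s a => subStep a s)
    (m, (false, []))).2.2.reverse := rfl
  rw [← e1, ← e2] at h
  have hlt' : (valS (subS l m).2 : ℤ) < 2 ^ (l ++ List.replicate m.length Sym.o).length := by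
    exact_mod_cast hlt
  cases hb : (subS l m).1 with
  | false =>
    rw [hb] at h
    simp only [Bool.toNat_false, Nat.cast_zero, mul_zero, sub_zero] at h
    have h0 : (0 : ℤ) ≤ (valS (subS l m).2 : ℤ) := Int.natCast_nonneg _
    constructor
    · constructor
      · intro h1; cases h1
      · intro h1; exfalso; omega
    · intro h1; omega
  | true =>
    rw [hb] at h
    simp only [Bool.toNat_true, Nat.cast_one, mul_one] at h
    constructor
    · constructor
      · intro _; omega
      · intro _; rfl
    · intro h1; exfalso; omega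

theorem FP.subStep (a : Sym) :
    FP (fun y : E × (List Sym × (Bool × List Sym)) => subStep a y.2) := by
  have h1 : FP (fun y : E × (List Sym × (Bool × List Sym)) => y.2.1) := FP.comp FP.fst FP.snd
  have h2 : FP (fun y : E × (List Sym × (Bool × List Sym)) => y.2.2.1) :=
    FP.comp (f := fun y : E × (List Sym × (Bool × List Sym)) => y.2.2) FP.fst
      (FP.comp FP.snd FP.snd)
  have h3 : FP (fun y : E × (List Sym × (Bool × List Sym)) => y.2.2.2) :=
    FP.comp (f := fun y : E × (List Sym × (Bool × List Sym)) => y.2.2) FP.snd
      (FP.comp FP.snd FP.snd)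
  exact FP.pair (FP.tail h1) (FP.pair (FP.or (FP.and (FP.const _) (FP.headI h1))
    (FP.and h2 (FP.or (FP.const _) (FP.headI h1))))
    (FP.consB (FP.bne (FP.bne (FP.const _) (FP.headI h1)) h2) h3))

/-- strings of zeros -/
theorem FP.zeros {n : E → ℕ} (hn : FP n) : FP (fun x => List.replicate (n x) Sym.o) :=
  (FP.subst hn.unary (fun _ => [Sym.o])).congr (fun x => by
    generalize n x = n
    induction n with
    | zero => rfl
    | succ n ih => rw [List.replicate_succ, List.flatMap_cons, ih]; rfl)

theorem FP.subS {l m : E → List Sym} (hl : FP l) (hm : FP m) : FP (fun x => subS (l x) (m x)) := by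
  have h2 : ∀ (a : Sym) (x : E) (s : List Sym × (Bool × List Sym)),
      size (TM.subStep a s) ≤ size s + (2 : Polynomial ℕ).eval (size x) := by
    intro a x s
    have h2 : (2 : Polynomial ℕ).eval (size x) = 2 := by simp
    rw [h2]
    unfold TM.subStep
    rw [size_pair, size_pair, size_list, size_list, List.length_cons, size_pair, size_pair,
      size_list, size_list]
    have h3 := size_bool ((!(sb a) && decide (s.1.head? = some Sym.i)) || ((s.2.1) &&
      (!(sb a) || decide (s.1.head? = some Sym.i))))
    simp only [List.length_tail] at *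
    omega
  have h3 := FP.foldl_growth (FP.append hl (FP.zeros (FP.length hm)))
    (init := fun x => (m x, (false, ([] : List Sym)))) (FP.pair hm (FP.const _))
    (step := fun a y => TM.subStep a y.2) (fun a => FP.subStep a) 2 h2
  exact FP.pair (FP.comp FP.fst (FP.comp FP.snd h3)) (FP.reverse (FP.comp FP.snd
    (FP.comp FP.snd h3)))

theorem FP.bLt {f g : E → BN} (hf : FP f) (hg : FP g) :
    FP (fun x => decide ((f x).val < (g x).val)) :=
  (FP.comp FP.fst (FP.subS hf.bcode hg.bcode)).congr (fun x => by
    have h := (subS_spec (TM.bcode (f x).val) (TM.bcode (g x).val)).1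
    rw [valS_bcode, valS_bcode] at h
    rw [Bool.eq_iff_iff, h]
    simp)

theorem FP.bLe {f g : E → BN} (hf : FP f) (hg : FP g) :
    FP (fun x => decide ((f x).val ≤ (g x).val)) :=
  (FP.not (FP.bLt hg hf)).congr (fun x => by
    by_cases h : (f x).val ≤ (g x).val
    · simp [h, Nat.not_lt.2 h]
    · simp [h, Nat.lt_of_not_le h])

theorem FP.bEq {f g : E → BN} (hf : FP f) (hg : FP g) :
    FP (fun x => decide ((f x).val = (g x).val)) :=
  (FP.and (FP.bLe hf hg) (FP.bLe hg hf)).congr (fun x => by
    by_cases h : (f x).val = (g x).val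
    · simp [h]
    · simp only [h, decide_false, Bool.and_eq_false_iff, decide_eq_false_iff_not]; omega)

theorem FP.bSub {f g : E → BN} (hf : FP f) (hg : FP g) :
    FP (fun x => (⟨(f x).val - (g x).val⟩ : BN)) :=
  (FP.ite (FP.bLe hg hf) (FP.ofBits (FP.comp FP.snd (FP.subS hf.bcode hg.bcode)))
    (FP.const ⟨0⟩)).congr (fun x => by
    by_cases h : (g x).val ≤ (f x).val
    · have h2 := (subS_spec (TM.bcode (f x).val) (TM.bcode (g x).val)).2
      rw [valS_bcode, valS_bcode] at h2
      simp only [h, decide_true, if_true]
      rw [h2 h]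
    · simp only [h, decide_false]
      apply BN.ext
      change 0 = _
      simp only
      omega)

theorem FP.BN_congr {f g : E → BN} (hf : FP f) (h : ∀ x, (f x).val = (g x).val) : FP g :=
  hf.congr (fun x => BN.ext (h x))

/-! ### Doubling, multiplication, powers -/

theorem FP.bit0 {f : E → BN} (hf : FP f) : FP (fun x => (⟨2 * (f x).val⟩ : BN)) :=
  (FP.ofBits (FP.cons Sym.o hf.bcode)).congr (fun x => by
    rw [valS_cons, valS_bcode]
    apply BN.ext
    change 0 + _ = _
    simp)

theorem FP.bit1 {f : E → BN} (hf : FP f) : FP (fun x => (⟨2 * (f x).val + 1⟩ : BN)) :=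
  (FP.ofBits (FP.cons Sym.i hf.bcode)).congr (fun x => by
    rw [valS_cons, valS_bcode]
    apply BN.ext
    change 1 + _ = _
    simp only
    omega)

/-- halving -/
theorem FP.bHalf {f : E → BN} (hf : FP f) : FP (fun x => (⟨(f x).val / 2⟩ : BN)) :=
  (FP.ofBits (FP.tail hf.bcode)).congr (fun x => by
    have h1 := valS_bcode (f x).val
    rw [valS_eq_head] at h1
    apply BN.ext
    change valS (TM.bcode (f x).val).tail = _
    have := Bool.toNat_le (decide ((TM.bcode (f x).val).head? = some Sym.i))
    simp only
    omega)

/-- the lowest bit -/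
theorem FP.bOdd {f : E → BN} (hf : FP f) : FP (fun x => decide ((f x).val % 2 = 1)) :=
  (FP.headI hf.bcode).congr (fun x => by
    have h1 := valS_bcode (f x).val
    rw [valS_eq_head] at h1
    cases hb : decide ((TM.bcode (f x).val).head? = some Sym.i) with
    | false =>
      rw [hb, Bool.toNat_false] at h1
      symm
      rw [decide_eq_false_iff_not]
      omega
    | true =>
      rw [hb, Bool.toNat_true] at h1
      symm
      rw [decide_eq_true_eq]
      omega)

theorem size_bit (a b : ℕ) (h : b ≤ 2 * a + 1) : size (⟨b⟩ : BN) ≤ size (⟨a⟩ : BN) + 1 := by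
  apply size_BN_le
  have h1 := lt_two_pow_size ⟨a⟩
  simp only at h1 ⊢
  rw [pow_succ]
  omega

theorem FP.bMul {f g : E → BN} (hf : FP f) (hg : FP g) :
    FP (fun x => (⟨(f x).val * (g x).val⟩ : BN)) := by
  obtain ⟨pg, hpg⟩ := hg.size_le
  have h1 : ∀ a : Sym, FP (fun y : E × BN => (⟨2 * y.2.val +
      (if sb a then (g y.1).val else 0)⟩ : BN)) := by
    intro a
    cases sb a with
    | false => exact (FP.bit0 FP.snd).congr (fun y => by simp)
    | true =>
      exact (FP.bAdd (FP.bit0 FP.snd) (FP.comp hg FP.fst)).congr (fun y => by simp)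
  have h2 : ∀ (a : Sym) (x : E) (s : BN), size (⟨2 * s.val +
      (if sb a then (g x).val else 0)⟩ : BN) ≤ size s + (pg + 2).eval (size x) := by
    intro a x s
    have e1 := size_BN_add (2 * s.val) (g x).val (2 * s.val + (if sb a then (g x).val else 0))
      (by split <;> omega)
    have e2 := size_bit s.val (2 * s.val) (by omega)
    have e3 := hpg x
    have e4 : (pg + 2).eval (size x) = pg.eval (size x) + 2 := by simp
    rw [e4]
    have e5 : size (⟨(g x).val⟩ : BN) = size (g x) := rfl
    have e6 : size (⟨s.val⟩ : BN) = size s := rfl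
    omega
  have h3 := FP.foldl_growth (FP.reverse hf.bcode) (init := fun _ => (⟨0⟩ : BN)) (FP.const _)
    (step := fun a y => (⟨2 * y.2.val + (if sb a then (g y.1).val else 0)⟩ : BN)) h1
    (pg + 2) h2
  refine h3.congr (fun x => ?_)
  simp only
  have key : ∀ l : List Sym, List.foldl (fun (s : BN) a =>
      (⟨2 * s.val + (if sb a then (g x).val else 0)⟩ : BN)) ⟨0⟩ l.reverse =
      ⟨valS l * (g x).val⟩ := by
    intro l
    rw [List.foldl_reverse]
    induction l with
    | nil => simp [valS_nil]
    | cons a l ih =>
      rw [List.foldr_cons, ih, valS_cons]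
      apply BN.ext
      simp only
      cases sb a <;> simp <;> ring
  rw [key, valS_bcode]

/-- the binary code of a number in unary -/
theorem FP.bOfNat {n : E → ℕ} (hn : FP n) : FP (fun x => (⟨n x⟩ : BN)) := by
  have h3 := FP.natRec_growth hn (init := fun _ => (⟨0⟩ : BN)) (FP.const _)
    (step := fun y => (⟨y.2.val + 1⟩ : BN)) ((FP.bAdd FP.snd (FP.const ⟨1⟩)).congr
      (fun _ => rfl)) 3 (by
      intro x s
      have e1 := size_BN_add s.val 1 (s.val + 1) le_rfl
      have e2 : size (⟨1⟩ : BN) = 1 := by rw [size_BN]; rfl
      have e3 : (3 : Polynomial ℕ).eval (size x) = 3 := by simp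
      rw [e3]
      have e6 : size (⟨s.val⟩ : BN) = size s := rfl
      change size (⟨s.val + 1⟩ : BN) ≤ size s + 3
      omega)
  refine h3.congr (fun x => ?_)
  generalize n x = n
  induction n with
  | zero => rfl
  | succ n ih => rw [Function.iterate_succ_apply', ih]

/-- the number of bits, in unary -/
theorem FP.bSize {f : E → BN} (hf : FP f) : FP (fun x => Nat.size (f x).val) :=
  (FP.length hf.bcode).congr (fun x => bcode_length _)

/-- The conversion to unary, cut at a given number. -/
theorem FP.bMin {f : E → BN} (hf : FP f) {k : E → ℕ} (hk : FP k) :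
    FP (fun x => min (f x).val (k x)) := by
  have h3 := FP.natRec_growth hk (init := fun _ => (0 : ℕ)) (FP.const _)
    (step := fun y => if decide (y.2 < (f y.1).val) then y.2 + 1 else y.2)
    (FP.ite ((FP.bLt (FP.bOfNat FP.snd) (FP.comp hf FP.fst)).congr (fun _ => rfl))
      (FP.add FP.snd (FP.const 1)) FP.snd) 1 (by
      intro x s
      rw [size_nat, size_nat]
      simp only [Polynomial.eval_one]
      split <;> omega)
  refine h3.congr (fun x => ?_)
  generalize k x = n
  simp only
  induction n with
  | zero => simp
  | succ n ih =>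
    rw [Function.iterate_succ_apply', ih]
    by_cases h : (f x).val ≤ n
    · rw [min_eq_left h, min_eq_left (by omega)]
      simp
    · rw [min_eq_right (by omega), min_eq_right (by omega)]
      simp [Nat.lt_of_not_le h]

/-- powers with exponent in unary -/
theorem FP.bPow {f : E → BN} (hf : FP f) {k : E → ℕ} (hk : FP k) :
    FP (fun x => (⟨(f x).val ^ (k x)⟩ : BN)) := by
  obtain ⟨pf, hpf⟩ := hf.size_le
  have h3 := FP.natRec_growth hk (init := fun _ => (⟨1⟩ : BN)) (FP.const _)
    (step := fun y => (⟨(f y.1).val * y.2.val⟩ : BN)) ((FP.bMul (FP.comp hf FP.fst) FP.snd).congr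
      (fun _ => rfl)) pf (by
      intro x s
      have e1 := size_BN_mul (f x).val s.val _ le_rfl
      have e2 := hpf x
      have e5 : size (⟨(f x).val⟩ : BN) = size (f x) := rfl
      have e6 : size (⟨s.val⟩ : BN) = size s := rfl
      change size (⟨(f x).val * s.val⟩ : BN) ≤ size s + pf.eval (size x)
      omega)
  refine h3.congr (fun x => ?_)
  generalize k x = n
  simp only
  induction n with
  | zero => simp
  | succ n ih => rw [Function.iterate_succ_apply', ih, pow_succ']

/-! ### Division -/

/-- one step of the division by `g` -/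
def divStep (g : ℕ) (b : Bool) (s : BN × BN) : BN × BN :=
  if decide (g ≤ 2 * s.2.val + b.toNat) then
    (⟨2 * s.1.val + 1⟩, ⟨2 * s.2.val + b.toNat - g⟩)
  else (⟨2 * s.1.val⟩, ⟨2 * s.2.val + b.toNat⟩)

theorem divStep_spec (g : ℕ) (hg : 0 < g) (l : List Sym) :
    List.foldl (fun s a => divStep g (sb a) s) (⟨0⟩, ⟨0⟩) l.reverse =
      (⟨valS l / g⟩, ⟨valS l % g⟩) := by
  rw [List.foldl_reverse]
  induction l with
  | nil => simp [valS_nil]
  | cons a l ih =>
    rw [List.foldr_cons, ih, valS_cons]
    unfold divStep
    simp only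
    have h0 := Nat.div_add_mod (valS l) g
    have h1 := Nat.mod_lt (valS l) hg
    have h2 : (sb a).toNat ≤ 1 := Bool.toNat_le _
    generalize (sb a).toNat = b at *
    generalize valS l / g = q at *
    generalize valS l % g = r at *
    rw [← h0]
    by_cases h : g ≤ 2 * r + b
    · simp only [h, decide_true, if_true]
      have e := (Nat.div_mod_unique (a := b + 2 * (g * q + r)) (d := 2 * q + 1)
        (c := 2 * r + b - g) hg).2 ⟨by
          rw [Nat.mul_add, Nat.mul_one]
          have : g * (2 * q) = 2 * (g * q) := by ring
          rw [this]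
          omega, by omega⟩
      rw [e.1, e.2]
    · simp only [h, decide_false]
      have e := (Nat.div_mod_unique (a := b + 2 * (g * q + r)) (d := 2 * q)
        (c := 2 * r + b) hg).2 ⟨by
          have : g * (2 * q) = 2 * (g * q) := by ring
          rw [this]
          omega, by omega⟩
      rw [e.1, e.2]
      rfl

/-- Quotient and remainder. -/
theorem FP.bDivMod {f g : E → BN} (hf : FP f) (hg : FP g) :
    FP (fun x => ((⟨(f x).val / (g x).val⟩ : BN), (⟨(f x).val % (g x).val⟩ : BN))) := by
  have h1 : ∀ a : Sym, FP (fun y : E × (BN × BN) => divStep (g y.1).val (sb a) y.2) := by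
    intro a
    have hr : FP (fun y : E × (BN × BN) => y.2.2) := FP.comp FP.snd FP.snd
    have hq : FP (fun y : E × (BN × BN) => y.2.1) := FP.comp FP.fst FP.snd
    have hr' : FP (fun y : E × (BN × BN) => (⟨2 * y.2.2.val + (sb a).toNat⟩ : BN)) := by
      cases sb a with
      | false => exact FP.bit0 hr
      | true => exact FP.bit1 hr
    have hg' : FP (fun y : E × (BN × BN) => g y.1) := FP.comp hg FP.fst
    unfold divStep
    exact FP.ite (FP.bLe hg' hr') (FP.pair (FP.bit1 hq) (FP.bSub hr' hg'))
      (FP.pair (FP.bit0 hq) hr')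
  have h2 : ∀ (a : Sym) (x : E) (s : BN × BN), size (divStep (g x).val (sb a) s) ≤
      size s + (2 : Polynomial ℕ).eval (size x) := by
    intro a x s
    have e3 : (2 : Polynomial ℕ).eval (size x) = 2 := by simp
    rw [e3]
    have e4 := Bool.toNat_le (sb a)
    have e5 : size (⟨s.1.val⟩ : BN) = size s.1 := rfl
    have e6 : size (⟨s.2.val⟩ : BN) = size s.2 := rfl
    unfold divStep
    split
    · have e1 := size_bit s.1.val (2 * s.1.val + 1) (by omega)
      have e2 := size_bit s.2.val (2 * s.2.val + (sb a).toNat - (g x).val) (by omega)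
      rw [size_pair, size_pair]
      change size (⟨2 * s.1.val + 1⟩ : BN) +
        size (⟨2 * s.2.val + (sb a).toNat - (g x).val⟩ : BN) ≤ size s.1 + size s.2 + 2
      omega
    · have e1 := size_bit s.1.val (2 * s.1.val) (by omega)
      have e2 := size_bit s.2.val (2 * s.2.val + (sb a).toNat) (by omega)
      rw [size_pair, size_pair]
      change size (⟨2 * s.1.val⟩ : BN) +
        size (⟨2 * s.2.val + (sb a).toNat⟩ : BN) ≤ size s.1 + size s.2 + 2
      omega
  have h3 := FP.foldl_growth (FP.reverse hf.bcode)
    (init := fun _ => ((⟨0⟩ : BN), (⟨0⟩ : BN))) (FP.const _)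
    (step := fun a y => divStep (g y.1).val (sb a) y.2) h1 2 h2
  refine (FP.ite (FP.bEq hg (FP.const ⟨0⟩)) (FP.pair (FP.const ⟨0⟩) hf) h3).congr (fun x => ?_)
  by_cases h : (g x).val = 0
  · simp only [h, decide_true, if_true, Nat.div_zero, Nat.mod_zero]
  · simp only [h, decide_false]
    have := divStep_spec (g x).val (Nat.pos_of_ne_zero h) (TM.bcode (f x).val)
    rw [valS_bcode] at this
    exact this

theorem FP.bDiv {f g : E → BN} (hf : FP f) (hg : FP g) :
    FP (fun x => (⟨(f x).val / (g x).val⟩ : BN)) :=
  (FP.comp FP.fst (FP.bDivMod hf hg)).congr (fun _ => rfl)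

theorem FP.bMod {f g : E → BN} (hf : FP f) (hg : FP g) :
    FP (fun x => (⟨(f x).val % (g x).val⟩ : BN)) :=
  (FP.comp FP.snd (FP.bDivMod hf hg)).congr (fun _ => rfl)

theorem FP.bDvd {f g : E → BN} (hf : FP f) (hg : FP g) :
    FP (fun x => decide ((f x).val ∣ (g x).val)) :=
  (FP.bEq (FP.bMod hg hf) (FP.const ⟨0⟩)).congr (fun x => by
    rw [Bool.eq_iff_iff, decide_eq_true_eq, decide_eq_true_eq]
    exact (Nat.dvd_iff_mod_eq_zero).symm)

/-! ### Sums and products -/

theorem FP.bSum [Inhabited F] {l : E → List F} (hl : FP l) {g : E × F → BN} (hg : FP g) :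
    FP (fun x => (⟨((l x).map (fun a => (g (x, a)).val)).sum⟩ : BN)) := by
  obtain ⟨pl, hpl⟩ := hl.size_le
  obtain ⟨pg, hpg⟩ := hg.size_le
  have h3 := FP.foldlE_growth hl (init := fun _ => (⟨0⟩ : BN)) (FP.const _)
    (step := fun y : E × BN × F => (⟨y.2.1.val + (g (y.1, y.2.2)).val⟩ : BN))
    (FP.bAdd (FP.comp FP.fst FP.snd) (FP.comp hg (FP.pair FP.fst (FP.comp FP.snd FP.snd))))
    (pg.comp (Polynomial.X + pl) + 1) (by
      intro x s a ha
      have e1 := size_BN_add s.val (g (x, a)).val _ le_rfl
      have e5 : size (⟨s.val⟩ : BN) = size s := rfl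
      have e6 : size (⟨(g (x, a)).val⟩ : BN) = size (g (x, a)) := rfl
      have e7 := hpg (x, a)
      have e8 : size (x, a) ≤ size x + pl.eval (size x) := by
        rw [size_pair]
        have := size_le_of_mem ha
        have := hpl x
        simp only
        omega
      have e9 := poly_mono pg e8
      simp only [Polynomial.eval_add, Polynomial.eval_comp, Polynomial.eval_X,
        Polynomial.eval_one]
      omega)
  refine h3.congr (fun x => ?_)
  have key : ∀ (l : List F) (s : BN), List.foldl (fun (s : BN) a =>
      (⟨s.val + (g (x, a)).val⟩ : BN)) s l = ⟨s.val + (l.map (fun a => (g (x, a)).val)).sum⟩ := by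
    intro l
    induction l with
    | nil => intro s; simp
    | cons a l ih =>
      intro s
      rw [List.foldl_cons, ih, List.map_cons, List.sum_cons, Nat.add_assoc]
  have := key (l x) ⟨0⟩
  simp only [Nat.zero_add] at this
  exact this

theorem FP.bProd [Inhabited F] {l : E → List F} (hl : FP l) {g : E × F → BN} (hg : FP g) :
    FP (fun x => (⟨((l x).map (fun a => (g (x, a)).val)).prod⟩ : BN)) := by
  obtain ⟨pl, hpl⟩ := hl.size_le
  obtain ⟨pg, hpg⟩ := hg.size_le
  have h3 := FP.foldlE_growth hl (init := fun _ => (⟨1⟩ : BN)) (FP.const _)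
    (step := fun y : E × BN × F => (⟨y.2.1.val * (g (y.1, y.2.2)).val⟩ : BN))
    (FP.bMul (FP.comp FP.fst FP.snd) (FP.comp hg (FP.pair FP.fst (FP.comp FP.snd FP.snd))))
    (pg.comp (Polynomial.X + pl)) (by
      intro x s a ha
      have e1 := size_BN_mul s.val (g (x, a)).val _ le_rfl
      have e5 : size (⟨s.val⟩ : BN) = size s := rfl
      have e6 : size (⟨(g (x, a)).val⟩ : BN) = size (g (x, a)) := rfl
      have e7 := hpg (x, a)
      have e8 : size (x, a) ≤ size x + pl.eval (size x) := by
        rw [size_pair]
        have := size_le_of_mem ha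
        have := hpl x
        simp only
        omega
      have e9 := poly_mono pg e8
      simp only [Polynomial.eval_comp, Polynomial.eval_add, Polynomial.eval_X]
      omega)
  refine h3.congr (fun x => ?_)
  have key : ∀ (l : List F) (s : BN), List.foldl (fun (s : BN) a =>
      (⟨s.val * (g (x, a)).val⟩ : BN)) s l = ⟨s.val * (l.map (fun a => (g (x, a)).val)).prod⟩ := by
    intro l
    induction l with
    | nil => intro s; simp
    | cons a l ih =>
      intro s
      rw [List.foldl_cons, ih, List.map_cons, List.prod_cons, Nat.mul_assoc]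
  have := key (l x) ⟨1⟩
  simp only [Nat.one_mul] at this
  exact this

/-- factorials of numbers in unary -/
theorem FP.bFactorial {n : E → ℕ} (hn : FP n) : FP (fun x => (⟨(n x).factorial⟩ : BN)) := by
  have h := FP.bProd (FP.range hn) (g := fun y : E × ℕ => (⟨y.2 + 1⟩ : BN))
    (FP.bOfNat (FP.addConst FP.snd 1))
  refine h.congr (fun x => ?_)
  apply BN.ext
  generalize n x = n
  simp only
  induction n with
  | zero => simp
  | succ n ih =>
    rw [List.range_succ, List.map_append, List.prod_append, ih, Nat.factorial_succ]
    simp [Nat.mul_comm]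

/-! ### Greatest common divisors -/

/-- one step of the Euclidean algorithm -/
def gcdStep (s : BN × BN) : BN × BN := (s.2, ⟨s.1.val % s.2.val⟩)

theorem gcdStep_gcd (s : BN × BN) (h : s.2.val ≠ 0) :
    Nat.gcd (gcdStep s).1.val (gcdStep s).2.val = Nat.gcd s.1.val s.2.val := by
  unfold gcdStep
  simp only
  rw [Nat.gcd_comm s.1.val s.2.val, Nat.gcd_rec s.2.val s.1.val, Nat.gcd_comm]

/-- one step of the Euclidean algorithm, stopping at zero -/
def gcdStep' (s : BN × BN) : BN × BN := if decide (s.2.val = 0) then s else gcdStep s

theorem gcdStep'_gcd (s : BN × BN) :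
    Nat.gcd (gcdStep' s).1.val (gcdStep' s).2.val = Nat.gcd s.1.val s.2.val := by
  unfold gcdStep'
  by_cases h : s.2.val = 0
  · simp [h]
  · simp only [h, decide_false]
    exact gcdStep_gcd s h

theorem gcdStep'_iter (k : ℕ) : ∀ (s : BN × BN), s.2.val < 2 ^ k →
    (gcdStep'^[2 * k] s).2.val = 0 := by
  have hfix : ∀ s : BN × BN, s.2.val = 0 → ∀ n, (gcdStep'^[n] s).2.val = 0 := by
    intro s hs n
    have h1 : gcdStep' s = s := by unfold gcdStep'; simp [hs]
    rw [Function.iterate_fixed h1]
    exact hs
  induction k with
  | zero => intro s hs; simpa using hs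
  | succ k ih =>
    intro s hs
    by_cases h : s.2.val = 0
    · exact hfix s h _
    have e : 2 * (k + 1) = (2 * k + 1) + 1 := by ring
    rw [e, Function.iterate_succ_apply]
    have h1 : gcdStep' s = (s.2, ⟨s.1.val % s.2.val⟩) := by
      unfold gcdStep' gcdStep; simp [h]
    rw [h1]
    by_cases h2 : s.1.val % s.2.val = 0
    · exact hfix _ h2 _
    rw [Function.iterate_succ_apply]
    have h3 : gcdStep' (s.2, ⟨s.1.val % s.2.val⟩) =
        (⟨s.1.val % s.2.val⟩, ⟨s.2.val % (s.1.val % s.2.val)⟩) := by
      unfold gcdStep' gcdStep; simp [h2]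
    rw [h3]
    apply ih
    simp only
    have h4 := Nat.mod_lt s.1.val (Nat.pos_of_ne_zero h)
    have h5 := Nat.mod_lt s.2.val (Nat.pos_of_ne_zero h2)
    have h6 := Nat.div_add_mod s.2.val (s.1.val % s.2.val)
    have h7 : 1 ≤ s.2.val / (s.1.val % s.2.val) := by
      rw [Nat.one_le_div_iff (Nat.pos_of_ne_zero h2)]
      exact h4.le
    have h8 : (s.1.val % s.2.val) * 1 ≤ (s.1.val % s.2.val) * (s.2.val / (s.1.val % s.2.val)) :=
      Nat.mul_le_mul_left _ h7
    rw [pow_succ] at hs
    omega

theorem FP.bGcd {f g : E → BN} (hf : FP f) (hg : FP g) :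
    FP (fun x => (⟨Nat.gcd (f x).val (g x).val⟩ : BN)) := by
  have h1 : FP (fun y : E × (BN × BN) => gcdStep' y.2) := by
    have hr : FP (fun y : E × (BN × BN) => y.2.2) := FP.comp FP.snd FP.snd
    have hq : FP (fun y : E × (BN × BN) => y.2.1) := FP.comp FP.fst FP.snd
    have hz : FP (fun y : E × (BN × BN) => decide (y.2.2.val = 0)) :=
      (FP.bEq hr (FP.const ⟨0⟩)).congr (fun _ => rfl)
    have hm : FP (fun y : E × (BN × BN) => (⟨y.2.1.val % y.2.2.val⟩ : BN)) := FP.bMod hq hr
    exact (FP.ite hz FP.snd (FP.pair hr hm)).congr (fun _ => rfl)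
  obtain ⟨pf, hpf⟩ := hf.size_le
  obtain ⟨pg, hpg⟩ := hg.size_le
  -- bounded iteration
  have hB : ∀ (n : ℕ) (s : BN × BN), (gcdStep'^[n] s).1.val ≤ s.1.val + s.2.val ∧
      (gcdStep'^[n] s).2.val ≤ s.1.val + s.2.val := by
    intro n
    induction n with
    | zero => intro s; simp
    | succ n ih =>
      intro s
      rw [Function.iterate_succ_apply]
      have h := ih (gcdStep' s)
      have h2 : (gcdStep' s).1.val + (gcdStep' s).2.val ≤ s.1.val + s.2.val := by
        unfold gcdStep' gcdStep
        split
        · exact le_rfl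
        · simp only
          have := Nat.mod_le s.1.val s.2.val
          omega
      omega
  have h3 := FP.foldl (FP.mulConst (FP.bSize hg) 2).unary
    (init := fun x => (f x, g x)) (FP.pair hf hg)
    (step := fun _ y => gcdStep' y.2) (fun _ => h1) ⟨2 * pf + 2 * pg + 2, by
      intro x l' _
      have e : ∀ (l' : List Sym) (s : BN × BN), List.foldl (fun s _ => gcdStep' s) s l' =
          gcdStep'^[l'.length] s := by
        intro l'
        induction l' with
        | nil => intro s; rfl
        | cons a l' ih => intro s; rw [List.foldl_cons, ih, List.length_cons,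
            Function.iterate_succ_apply]
      simp only
      rw [e, size_pair]
      obtain ⟨b1, b2⟩ := hB l'.length (f x, g x)
      simp only at b1 b2
      have c1 := size_BN_add (f x).val (g x).val _ b1
      have c2 := size_BN_add (f x).val (g x).val _ b2
      have d1 := hpf x
      have d2 := hpg x
      have d3 : size (⟨(f x).val⟩ : BN) = size (f x) := rfl
      have d4 : size (⟨(g x).val⟩ : BN) = size (g x) := rfl
      have d5 : size (gcdStep'^[l'.length] (f x, g x)).1 =
        size (⟨(gcdStep'^[l'.length] (f x, g x)).1.val⟩ : BN) := rfl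
      have d6 : size (gcdStep'^[l'.length] (f x, g x)).2 =
        size (⟨(gcdStep'^[l'.length] (f x, g x)).2.val⟩ : BN) := rfl
      simp only [Polynomial.eval_add, Polynomial.eval_mul, Polynomial.eval_ofNat]
      omega⟩
  refine (FP.comp FP.fst h3).congr (fun x => ?_)
  have e : ∀ (l' : List Sym) (s : BN × BN), List.foldl (fun s _ => gcdStep' s) s l' =
      gcdStep'^[l'.length] s := by
    intro l'
    induction l' with
    | nil => intro s; rfl
    | cons a l' ih => intro s; rw [List.foldl_cons, ih, List.length_cons,
        Function.iterate_succ_apply]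
  have e2 : List.foldl (fun s a => (fun (_ : Sym) (y : E × (BN × BN)) => gcdStep' y.2) a (x, s))
      (f x, g x) (List.replicate (2 * Nat.size (g x).val) Sym.i) =
      gcdStep'^[2 * Nat.size (g x).val] (f x, g x) := by
    have := e (List.replicate (2 * Nat.size (g x).val) Sym.i) (f x, g x)
    rw [List.length_replicate] at this
    exact this
  apply BN.ext
  rw [e2]
  have g1 := gcdStep'_iter (Nat.size (g x).val) (f x, g x) (Nat.lt_size_self _)
  have g2 : ∀ (n : ℕ) (s : BN × BN), Nat.gcd (gcdStep'^[n] s).1.val (gcdStep'^[n] s).2.val =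
      Nat.gcd s.1.val s.2.val := by
    intro n
    induction n with
    | zero => intro s; rfl
    | succ n ih => intro s; rw [Function.iterate_succ_apply, ih, gcdStep'_gcd]
  have g3 := g2 (2 * Nat.size (g x).val) (f x, g x)
  rw [g1, Nat.gcd_zero_right] at g3
  exact g3

theorem FP.bLcm {f g : E → BN} (hf : FP f) (hg : FP g) :
    FP (fun x => (⟨Nat.lcm (f x).val (g x).val⟩ : BN)) :=
  (FP.bDiv (FP.bMul hf hg) (FP.bGcd hf hg)).congr (fun _ => rfl)

/-! ### Codes -/

/-- The code of a number in the prelude's encoding. -/
theorem bitEncode_nat (n : ℕ) : (N487b59b3.bitEncode n).map bs = TM.bcode n := rfl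

end Pool.Agent.PartSep.TM
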