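import Pool.Agent.Lib_MP_033923_lc.Sched

/-!
Just-in-time sequencing: piecewise linear deviation functions with penalties, and the comparison of
costs.
-/

set_option autoImplicit false

namespace Pool.Agent.JIT

open Finset

theorem hinge_convex {a H : ℝ} (hH : 0 ≤ H) : ConvexOn ℝ Set.univ (hinge a H) := by
  have h1 : ConvexOn ℝ Set.univ (fun x : ℝ => |x|) := by
    refine ⟨convex_univ, fun x _ y _ s t hs ht _ => ?_⟩
    simp only [smul_eq_mul]
    refine (abs_add_le _ _).trans (le_of_eq ?_)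
    rw [abs_mul, abs_mul, abs_of_nonneg hs, abs_of_nonneg ht]
  have h2 : ConvexOn ℝ Set.univ (fun x : ℝ => max 0 (-x - a)) := by
    have h3 : ConvexOn ℝ Set.univ (fun _ : ℝ => (0 : ℝ)) := convexOn_const _ convex_univ
    have h4 : ConvexOn ℝ Set.univ (fun x : ℝ => -x - a) := by
      refine ⟨convex_univ, fun x _ y _ s t hs ht hst => ?_⟩
      simp only [smul_eq_mul]
      have : a = (s + t) * a := by rw [hst, one_mul]
      nlinarith
    exact h3.sup h4
  exact h1.add (h2.smul hH)

theorem hinge_zero {a H : ℝ} (ha : 0 ≤ a) : hinge a H 0 = 0 := by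
  have : max 0 (-0 - a) = 0 := max_eq_left (by linarith)
  simp [hinge, ha]

theorem hinge_ge_abs {a H : ℝ} (hH : 0 ≤ H) (x : ℝ) : |x| ≤ hinge a H x := by
  unfold hinge
  have : 0 ≤ H * max 0 (-x - a) := mul_nonneg hH (le_max_left _ _)
  linarith

theorem hinge_pos {a H : ℝ} (hH : 0 ≤ H) (x : ℝ) (hx : x ≠ 0) : 0 < hinge a H x :=
  lt_of_lt_of_le (abs_pos.2 hx) (hinge_ge_abs hH x)

theorem hinge_nonneg {a H : ℝ} (hH : 0 ≤ H) (x : ℝ) : 0 ≤ hinge a H x :=
  (abs_nonneg x).trans (hinge_ge_abs hH x)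

theorem hinge_eq_abs {a H x : ℝ} (h : -x ≤ a) : hinge a H x = |x| := by
  unfold hinge
  rw [max_eq_left (by linarith), mul_zero, add_zero]

theorem hinge_ge {a H x : ℝ} (hH : 0 ≤ H) : H * (-x - a) ≤ hinge a H x := by
  unfold hinge
  have h1 := mul_le_mul_of_nonneg_left (le_max_right 0 (-x - a)) hH
  have h2 := abs_nonneg x
  linarith

variable {ι : Type} [Fintype ι] [DecidableEq ι]

omit [Fintype ι] [DecidableEq ι] in
theorem admissible_hinges (D : ℕ) (α H : ι → ℕ) : Admissible (hinges D α H) := by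
  intro i
  exact ⟨hinge_convex (Nat.cast_nonneg _), hinge_zero (by positivity),
    fun x hx => hinge_pos (Nat.cast_nonneg _) x hx⟩

omit [DecidableEq ι] in
theorem le_total (d : ι → ℕ) (i : ι) : d i ≤ total d :=
  Finset.single_le_sum (fun j _ => Nat.zero_le (d j)) (Finset.mem_univ i)

theorem dev_nonneg (d α H : ι → ℕ) (S : ℕ → ι) (i : ι) (k : ℕ) :
    0 ≤ dev d (hinges (total d) α H) S i k :=
  hinge_nonneg (Nat.cast_nonneg _) _

/-- the deviation is at most `D` in absolute value -/
theorem abs_dev_le (d : ι → ℕ) (S : ℕ → ι) (i : ι) (k : ℕ) (hk : k ∈ Icc 1 (total d)) :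
    |(produced S i k : ℝ) - k * ((d i : ℝ) / (total d : ℝ))| ≤ total d := by
  rw [Finset.mem_Icc] at hk
  have hD : (0 : ℝ) < total d := by
    have : 0 < total d := by omega
    exact_mod_cast this
  have h1 : (produced S i k : ℝ) ≤ total d := by
    exact_mod_cast (produced_le S i k).trans hk.2
  have h2 : (d i : ℝ) / (total d : ℝ) ≤ 1 := by
    rw [div_le_one hD]
    exact_mod_cast le_total d i
  have h3 : (0 : ℝ) ≤ (d i : ℝ) / (total d : ℝ) := by positivity
  have h4 : (k : ℝ) ≤ total d := by exact_mod_cast hk.2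
  have h5 : (0 : ℝ) ≤ produced S i k := Nat.cast_nonneg _
  have h6 : (0 : ℝ) ≤ k := Nat.cast_nonneg _
  rw [abs_le]
  constructor
  · nlinarith
  · nlinarith

/-- The model `i` respects its tolerance at the position `k`. -/
def Good (d α : ι → ℕ) (S : ℕ → ι) (i : ι) (k : ℕ) : Prop :=
  d i * k ≤ total d * produced S i k + α i

theorem dev_le_of_good (d α H : ι → ℕ) (S : ℕ → ι) (i : ι) (k : ℕ) (hk : k ∈ Icc 1 (total d))
    (hg : Good d α S i k) : dev d (hinges (total d) α H) S i k ≤ total d := by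
  have hD : (0 : ℝ) < total d := by
    rw [Finset.mem_Icc] at hk
    have : 0 < total d := by omega
    exact_mod_cast this
  unfold dev hinges
  rw [hinge_eq_abs]
  · exact abs_dev_le d S i k hk
  · have h : (d i : ℝ) * k ≤ total d * produced S i k + α i := by exact_mod_cast hg
    rw [le_div_iff₀ hD]
    have : -((produced S i k : ℝ) - k * ((d i : ℝ) / (total d : ℝ))) * (total d : ℝ)
        = (d i : ℝ) * k - total d * produced S i k := by
      field_simp
      ring
    rw [this]
    linarith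

theorem dev_ge_of_not_good (d α H : ι → ℕ) (S : ℕ → ι) (i : ι) (k : ℕ) (hk : k ∈ Icc 1 (total d))
    (hg : ¬ Good d α S i k) :
    (H i : ℝ) / (total d : ℝ) ≤ dev d (hinges (total d) α H) S i k := by
  have hD : (0 : ℝ) < total d := by
    rw [Finset.mem_Icc] at hk
    have : 0 < total d := by omega
    exact_mod_cast this
  unfold dev hinges
  refine le_trans ?_ (hinge_ge (Nat.cast_nonneg _))
  rw [div_eq_mul_inv]
  refine mul_le_mul_of_nonneg_left ?_ (Nat.cast_nonneg _)
  unfold Good at hg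
  have h : (total d : ℝ) * produced S i k + α i + 1 ≤ (d i : ℝ) * k := by
    exact_mod_cast (Nat.lt_of_not_le hg)
  rw [← one_div, div_le_iff₀ hD]
  have : (-((produced S i k : ℝ) - k * ((d i : ℝ) / (total d : ℝ))) - (α i : ℝ) / (total d : ℝ))
      * (total d : ℝ) = (d i : ℝ) * k - total d * produced S i k - α i := by
    field_simp
    ring
  rw [this]
  linarith

/-- the special model: its deviation is at most `D + H` everywhere -/
theorem dev_special_le (d α H : ι → ℕ) (S : ℕ → ι) (s : ι) (hs : d s = 1) (k : ℕ)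
    (hk : k ∈ Icc 1 (total d)) :
    dev d (hinges (total d) α H) S s k ≤ total d + H s := by
  have hD : (0 : ℝ) < total d := by
    rw [Finset.mem_Icc] at hk
    have : 0 < total d := by omega
    exact_mod_cast this
  unfold dev hinges hinge
  have h1 := abs_dev_le d S s k hk
  have h2 : max 0 (-((produced S s k : ℝ) - k * ((d s : ℝ) / (total d : ℝ)))
      - (α s : ℝ) / (total d : ℝ)) ≤ 1 := by
    refine max_le (by norm_num) ?_
    have h3 : (0 : ℝ) ≤ (α s : ℝ) / (total d : ℝ) := by positivity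
    have h4 : (k : ℝ) * ((d s : ℝ) / (total d : ℝ)) ≤ 1 := by
      rw [hs, ← mul_div_assoc, div_le_one hD]
      rw [Finset.mem_Icc] at hk
      have : (k : ℝ) ≤ total d := by exact_mod_cast hk.2
      simpa using this
    have h5 : (0 : ℝ) ≤ produced S s k := Nat.cast_nonneg _
    linarith
  have h6 := mul_le_mul_of_nonneg_left h2 (Nat.cast_nonneg (α := ℝ) (H s))
  linarith

/-- Any cost function between the largest deviation and the sum of all deviations. -/
def Between (d α H : ι → ℕ) (Φ : (ℕ → ι) → ℝ) : Prop :=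
  ∀ S, (∀ i, ∀ k ∈ Icc 1 (total d), dev d (hinges (total d) α H) S i k ≤ Φ S) ∧
    Φ S ≤ ∑ i, ∑ k ∈ Icc 1 (total d), dev d (hinges (total d) α H) S i k

theorem between_total (d α H : ι → ℕ) :
    Between d α H (totalDeviation d (hinges (total d) α H)) := by
  intro S
  refine ⟨fun i k hk => ?_, le_rfl⟩
  unfold totalDeviation
  refine le_trans ?_ (Finset.single_le_sum
    (f := fun i => ∑ k ∈ Icc 1 (total d), dev d (hinges (total d) α H) S i k)
    (fun j _ => Finset.sum_nonneg (fun l _ => dev_nonneg d α H S j l)) (Finset.mem_univ i))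
  exact Finset.single_le_sum (f := fun k => dev d (hinges (total d) α H) S i k)
    (fun l _ => dev_nonneg d α H S i l) hk

theorem finite_devs (d : ι → ℕ) (F : ι → ℝ → ℝ) (S : ℕ → ι) :
    {y : ℝ | ∃ i, ∃ k ∈ Icc 1 (total d), y = dev d F S i k}.Finite := by
  have : {y : ℝ | ∃ i, ∃ k ∈ Icc 1 (total d), y = dev d F S i k} ⊆
      ((Finset.univ ×ˢ Icc 1 (total d)).image (fun p : ι × ℕ => dev d F S p.1 p.2) : Set ℝ) := by
    rintro y ⟨i, k, hk, rfl⟩
    rw [Finset.mem_coe, Finset.mem_image]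
    exact ⟨(i, k), Finset.mem_product.2 ⟨Finset.mem_univ _, hk⟩, rfl⟩
  exact (Finset.finite_toSet _).subset this

theorem between_max (d α H : ι → ℕ) (hne : Nonempty ι) (hD : 1 ≤ total d) :
    Between d α H (maxDeviation d (hinges (total d) α H)) := by
  intro S
  have hb := between_total d α H S
  constructor
  · intro i k hk
    exact le_csSup (finite_devs _ _ _).bddAbove ⟨i, k, hk, rfl⟩
  · refine csSup_le ?_ ?_
    · obtain ⟨i⟩ := hne
      exact ⟨_, i, 1, Finset.mem_Icc.2 ⟨le_rfl, hD⟩, rfl⟩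
    · rintro y ⟨i, k, hk, rfl⟩
      exact hb.1 i k hk

variable (d α H : ι → ℕ) (s : ι)

/-- if everything is respected, the cost is at most `n * D ^ 2` -/
theorem cost_le_of_good (Φ : (ℕ → ι) → ℝ) (hΦ : Between d α H Φ) (S : ℕ → ι)
    (hg : ∀ i, ∀ k ∈ Icc 1 (total d), Good d α S i k) :
    Φ S ≤ (Fintype.card ι : ℝ) * (total d : ℝ) ^ 2 := by
  refine (hΦ S).2.trans ?_
  have : ∀ i ∈ (Finset.univ : Finset ι),
      ∑ k ∈ Icc 1 (total d), dev d (hinges (total d) α H) S i k ≤ (total d : ℝ) ^ 2 := by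
    intro i _
    have h1 : ∑ k ∈ Icc 1 (total d), dev d (hinges (total d) α H) S i k
        ≤ ∑ k ∈ Icc 1 (total d), (total d : ℝ) :=
      Finset.sum_le_sum (fun k hk => dev_le_of_good d α H S i k hk (hg i k hk))
    refine h1.trans (le_of_eq ?_)
    rw [Finset.sum_const, Nat.card_Icc, nsmul_eq_mul]
    simp
    ring
  refine (Finset.sum_le_sum this).trans (le_of_eq ?_)
  rw [Finset.sum_const, nsmul_eq_mul, Finset.card_univ]

/-- if everything but the special model is respected, the cost is at most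
`n * D ^ 2 + D * H_s` -/
theorem cost_le_of_good' (Φ : (ℕ → ι) → ℝ) (hΦ : Between d α H Φ) (S : ℕ → ι) (hs : d s = 1)
    (hg : ∀ i, i ≠ s → ∀ k ∈ Icc 1 (total d), Good d α S i k) :
    Φ S ≤ (Fintype.card ι : ℝ) * (total d : ℝ) ^ 2 + total d * H s := by
  refine (hΦ S).2.trans ?_
  have : ∀ i ∈ (Finset.univ : Finset ι),
      ∑ k ∈ Icc 1 (total d), dev d (hinges (total d) α H) S i k
        ≤ (total d : ℝ) ^ 2 + (if i = s then (total d : ℝ) * H s else 0) := by
    intro i _
    have h1 : ∑ k ∈ Icc 1 (total d), dev d (hinges (total d) α H) S i k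
        ≤ ∑ k ∈ Icc 1 (total d), ((total d : ℝ) + (if i = s then (H s : ℝ) else 0)) := by
      refine Finset.sum_le_sum (fun k hk => ?_)
      split_ifs with h
      · subst h
        exact dev_special_le d α H S i hs k hk
      · rw [add_zero]
        exact dev_le_of_good d α H S i k hk (hg i h k hk)
    refine h1.trans (le_of_eq ?_)
    rw [Finset.sum_const, Nat.card_Icc, nsmul_eq_mul]
    split_ifs <;> simp <;> ring
  refine (Finset.sum_le_sum this).trans (le_of_eq ?_)
  rw [Finset.sum_add_distrib, Finset.sum_const, nsmul_eq_mul, Finset.card_univ,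
    Finset.sum_ite_eq' Finset.univ s, if_pos (Finset.mem_univ _)]

theorem first_of_opt (Φ : (ℕ → ι) → ℝ) (hΦ : Between d α H Φ) (hs : d s = 1) (hα : α s = 0)
    (hHs : H s = penS (Fintype.card ι) (total d))
    (S' : ℕ → ι) (hg : ∀ i, ∀ k ∈ Icc 1 (total d), Good d α S' i k)
    (S : ℕ → ι) (hopt : Φ S ≤ Φ S') : S 1 = s := by
  by_contra hne
  have h1D : 1 ≤ total d := hs ▸ le_total d s
  have hD : (0 : ℝ) < total d := by exact_mod_cast h1D
  have h1 := cost_le_of_good d α H Φ hΦ S' hg
  have hk : 1 ∈ Icc 1 (total d) := Finset.mem_Icc.2 ⟨le_rfl, h1D⟩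
  have hp : produced S s 1 = 0 := by
    have := produced_succ S s 0
    rw [produced_zero, if_neg (by simpa using hne)] at this
    simpa using this
  have hng : ¬ Good d α S s 1 := by
    unfold Good
    rw [hs, hp, hα]
    omega
  have h2 := dev_ge_of_not_good d α H S s 1 hk hng
  have h3 := (hΦ S).1 s 1 hk
  have h4 : (H s : ℝ) / (total d : ℝ) = (Fintype.card ι : ℝ) * (total d : ℝ) ^ 2 + 1 := by
    rw [hHs, penS]
    push_cast
    field_simp
  linarith

theorem good_of_opt (Φ : (ℕ → ι) → ℝ) (hΦ : Between d α H Φ) (hs : d s = 1)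
    (hHs : H s = penS (Fintype.card ι) (total d))
    (hHo : ∀ i, i ≠ s → H i = penO (Fintype.card ι) (total d))
    (S' : ℕ → ι) (hg : ∀ i, i ≠ s → ∀ k ∈ Icc 1 (total d), Good d α S' i k)
    (S : ℕ → ι) (hopt : Φ S ≤ Φ S') : ∀ i, i ≠ s → ∀ k ∈ Icc 1 (total d), Good d α S i k := by
  intro i hi k hk
  by_contra hng
  have h1D : 1 ≤ total d := hs ▸ le_total d s
  have hD : (0 : ℝ) < total d := by exact_mod_cast h1D
  have h1 := cost_le_of_good' d α H s Φ hΦ S' hs hg
  have h2 := dev_ge_of_not_good d α H S i k hk hng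
  have h3 := (hΦ S).1 i k hk
  have h4 : (H i : ℝ) / (total d : ℝ)
      = (Fintype.card ι : ℝ) * (total d : ℝ) ^ 2 + total d * H s + 1 := by
    rw [hHo i hi, penO, hHs]
    push_cast
    field_simp
  linarith

end Pool.Agent.JIT
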