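import Pool.Agent.Lib_MP_033923_lc.Main

/-!
Just-in-time sequencing: exact cover as a system of window conditions.
-/

set_option autoImplicit false

namespace Pool.Agent.JIT

open Finset

variable {m e : ℕ} (C : Fin m → Finset (Fin e))

theorem mult_pos (x : Fin m) : 1 ≤ mult m x :=
  Nat.mul_pos (by omega) (Nat.factorial_pos m)

theorem modulus_ge (x : Fin m) : m + e + 3 ≤ modulus m e x := by
  unfold modulus
  have := Nat.mul_le_mul_left (m + e + 2) (mult_pos x)
  omega

theorem bigL_pos : 1 ≤ bigL m e := by
  have h : ∀ x ∈ (Finset.univ : Finset (Fin m)), 0 < modulus m e x := by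
    intro x _
    have := modulus_ge (e := e) x
    omega
  exact Finset.prod_pos h

theorem modulus_mul (x : Fin m) : bigL m e / modulus m e x * modulus m e x = bigL m e :=
  Nat.div_mul_cancel (Finset.dvd_prod_of_mem _ (Finset.mem_univ x))

theorem quot_pos (x : Fin m) : 1 ≤ bigL m e / modulus m e x := by
  have h1 := modulus_mul (e := e) x
  have h2 := bigL_pos (m := m) (e := e)
  rcases Nat.eq_zero_or_pos (bigL m e / modulus m e x) with h | h
  · rw [h, Nat.zero_mul] at h1
    omega
  · exact h

/-- `Q b_x (L / p_x) + L / p_x = L` -/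
theorem weight_eq (x : Fin m) :
    (m + e + 2) * (mult m x * (bigL m e / modulus m e x)) + bigL m e / modulus m e x
      = bigL m e := by
  have h1 := modulus_mul (e := e) x
  unfold modulus at h1 ⊢
  set g := bigL m e / (1 + (m + e + 2) * mult m x) with hg
  calc (m + e + 2) * (mult m x * g) + g = g * (1 + (m + e + 2) * mult m x) := by ring
    _ = bigL m e := h1

theorem pairwise_coprime : Pairwise (Function.onFun Nat.Coprime (modulus m e)) := by
  have key : ∀ x y : Fin m, x < y → Nat.Coprime (modulus m e x) (modulus m e y) := by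
    intro x y hxy
    have hxy' : (x : ℕ) < y := hxy
    have hy := y.2
    have e1 : modulus m e y = modulus m e x
        + (m + e + 2) * (((y : ℕ) - x) * Nat.factorial m) := by
      unfold modulus mult
      obtain ⟨k, hk⟩ : ∃ k, (y : ℕ) = x + k := ⟨y - x, by omega⟩
      rw [hk, Nat.add_sub_cancel_left]
      ring
    rw [e1, Nat.coprime_self_add_right]
    have h1 : Nat.Coprime (modulus m e x) (m + e + 2) := by
      unfold modulus
      rw [Nat.coprime_add_mul_left_left]
      exact Nat.coprime_one_left _
    have h2 : Nat.Coprime (modulus m e x) (Nat.factorial m) := by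
      have e2 : modulus m e x = 1 + ((m + e + 2) * ((x : ℕ) + 1)) * Nat.factorial m := by
        unfold modulus mult
        ring
      rw [e2, Nat.coprime_add_mul_right_left]
      exact Nat.coprime_one_left _
    have h3 : Nat.Coprime (modulus m e x) ((y : ℕ) - x) :=
      Nat.Coprime.coprime_dvd_right (Nat.dvd_factorial (by omega) (by omega)) h2
    exact h1.mul_right (h3.mul_right h2)
  intro x y hxy
  rcases lt_or_gt_of_ne hxy with h | h
  · exact key x y h
  · exact (key y x h).symm

theorem cu_lt (j : Fin m ⊕ Fin e) : cu C j < bigL m e := by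
  rcases j with x | y
  · simp only [cu]
    have h1 := modulus_mul (e := e) x
    have h2 := quot_pos (e := e) x
    have h3 := modulus_ge (e := e) x
    calc bigL m e / modulus m e x = bigL m e / modulus m e x * 1 := (Nat.mul_one _).symm
      _ < bigL m e / modulus m e x * modulus m e x :=
          Nat.mul_lt_mul_of_pos_left (by omega) h2
      _ = bigL m e := h1
  · simp only [cu]
    have h1 : (m + e + 2) * ∑ x ∈ univ.filter (fun x => y ∈ C x),
        mult m x * (bigL m e / modulus m e x) ≤ m * bigL m e := by
      rw [Finset.mul_sum]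
      calc ∑ x ∈ univ.filter (fun x => y ∈ C x),
          (m + e + 2) * (mult m x * (bigL m e / modulus m e x))
          ≤ ∑ x ∈ univ.filter (fun x => y ∈ C x), bigL m e := by
            refine Finset.sum_le_sum (fun x _ => ?_)
            exact (Nat.le_add_right _ _).trans (weight_eq (e := e) x).le
        _ ≤ ∑ _x : Fin m, bigL m e :=
            Finset.sum_le_sum_of_subset (Finset.filter_subset _ _)
        _ = m * bigL m e := by
            rw [Finset.sum_const, smul_eq_mul, Finset.card_univ, Fintype.card_fin]
    have h2 := bigL_pos (m := m) (e := e)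
    have h3 : m * bigL m e < (m + e + 2) * bigL m e := Nat.mul_lt_mul_of_pos_right (by omega) h2
    exact Nat.lt_of_mul_lt_mul_left (h1.trans_lt h3)

theorem clo_le (hcov : ∀ y, ∃ x, y ∈ C x) (j : Fin m ⊕ Fin e) : clo j ≤ cu C j := by
  rcases j with x | y
  · exact Nat.zero_le _
  · simp only [cu, clo]
    obtain ⟨x, hx⟩ := hcov y
    calc 1 ≤ mult m x * (bigL m e / modulus m e x) :=
          Nat.mul_pos (mult_pos x) (quot_pos x)
      _ ≤ _ := Finset.single_le_sum (f := fun x => mult m x * (bigL m e / modulus m e x))
          (fun _ _ => Nat.zero_le _) (Finset.mem_filter.2 ⟨Finset.mem_univ x, hx⟩)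

theorem chi_lt (j : Fin m ⊕ Fin e) : (Fintype.card (Fin m ⊕ Fin e) + 1) * chi j < bigL m e := by
  have hc : Fintype.card (Fin m ⊕ Fin e) = m + e := by simp
  rw [hc]
  rcases j with x | y
  · simp only [chi]
    have h1 := modulus_mul (e := e) x
    have h2 := quot_pos (e := e) x
    have h3 := modulus_ge (e := e) x
    calc (m + e + 1) * (bigL m e / modulus m e x)
        < modulus m e x * (bigL m e / modulus m e x) :=
          Nat.mul_lt_mul_of_pos_right (by omega) h2
      _ = bigL m e := by rw [mul_comm, h1]
  · simp only [chi]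
    have h1 : (m + e + 2) * (bigL m e / (m + e + 2)) ≤ bigL m e := Nat.mul_div_le _ _
    have h2 := bigL_pos (m := m) (e := e)
    obtain ⟨z, hz⟩ : ∃ z, bigL m e / (m + e + 2) = z := ⟨_, rfl⟩
    rw [hz] at h1 ⊢
    have h3 : (m + e + 2) * z = (m + e + 1) * z + z := by ring
    rcases Nat.eq_zero_or_pos z with h4 | h4
    · rw [h4, Nat.mul_zero]
      exact h2
    · omega

/-- the residues of the element conditions -/
theorem cu_mod (q : ℕ) (y : Fin e) :
    (cu C (Sum.inr y) * q) % bigL m e =
      (∑ x ∈ univ.filter (fun x => y ∈ C x),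
        mult m x * (bigL m e / modulus m e x) * (q % modulus m e x)) % bigL m e := by
  simp only [cu]
  rw [Finset.sum_mul]
  have : ∀ s : Finset (Fin m),
      (∑ x ∈ s, mult m x * (bigL m e / modulus m e x) * q) ≡
        (∑ x ∈ s, mult m x * (bigL m e / modulus m e x) * (q % modulus m e x)) [MOD bigL m e] := by
    intro s
    induction s using Finset.induction_on with
    | empty => rfl
    | insert x s hx ih =>
      rw [Finset.sum_insert hx, Finset.sum_insert hx]
      refine Nat.ModEq.add ?_ ih
      rw [Nat.mul_assoc, Nat.mul_assoc]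
      refine Nat.ModEq.mul_left _ ?_
      have h1 : (q % modulus m e x) ≡ q [MOD modulus m e x] := Nat.mod_modEq _ _
      have h2 := (h1.mul_left' (bigL m e / modulus m e x))
      rw [modulus_mul] at h2
      exact h2.symm
  exact this _

theorem cu_mod_var (q : ℕ) (x : Fin m) :
    (cu C (Sum.inl x) * q) % bigL m e = bigL m e / modulus m e x * (q % modulus m e x) := by
  simp only [cu]
  calc bigL m e / modulus m e x * q % bigL m e
      = bigL m e / modulus m e x * q % (bigL m e / modulus m e x * modulus m e x) := by
        rw [modulus_mul]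
    _ = _ := Nat.mul_mod_mul_left _ _ _

/-- For residues zero and one the element condition reads off the chosen sets. -/
theorem cu_mod' (q : ℕ) (y : Fin e) (hq : ∀ x : Fin m, q % modulus m e x ≤ 1) :
    (cu C (Sum.inr y) * q) % bigL m e =
      ∑ x ∈ univ.filter (fun x => y ∈ C x ∧ q % modulus m e x = 1),
        mult m x * (bigL m e / modulus m e x) := by
  rw [cu_mod]
  have h1 : (∑ x ∈ univ.filter (fun x => y ∈ C x),
        mult m x * (bigL m e / modulus m e x) * (q % modulus m e x)) =
      ∑ x ∈ univ.filter (fun x => y ∈ C x ∧ q % modulus m e x = 1),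
        mult m x * (bigL m e / modulus m e x) := by
    rw [← Finset.filter_filter, Finset.sum_filter (fun x => q % modulus m e x = 1)]
    refine Finset.sum_congr rfl (fun x _ => ?_)
    have := hq x
    split_ifs with h
    · rw [h, Nat.mul_one]
    · have : q % modulus m e x = 0 := by omega
      rw [this, Nat.mul_zero]
  rw [h1]
  refine Nat.mod_eq_of_lt (lt_of_le_of_lt ?_ (cu_lt C (Sum.inr y)))
  simp only [cu]
  refine Finset.sum_le_sum_of_subset (fun x hx => ?_)
  rw [Finset.mem_filter] at hx ⊢
  exact ⟨hx.1, hx.2.1⟩

/-- The window conditions are solvable exactly if there is an exact cover. -/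
theorem sol_iff :
    (∃ q, Sol (bigL m e) (cu C) clo chi q) ↔
      ∃ T : Finset (Fin m), ∀ y, ∃! x, x ∈ T ∧ y ∈ C x := by
  constructor
  · rintro ⟨q, hq⟩
    have hc : ∀ x : Fin m, q % modulus m e x ≤ 1 := by
      intro x
      have h1 := (hq (Sum.inl x)).2
      rw [cu_mod_var] at h1
      simp only [chi] at h1
      have h2 := quot_pos (e := e) x
      refine Nat.le_of_mul_le_mul_left (c := bigL m e / modulus m e x) ?_ h2
      omega
    refine ⟨univ.filter (fun x => q % modulus m e x = 1), fun y => ?_⟩
    obtain ⟨h1, h2⟩ := hq (Sum.inr y)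
    rw [cu_mod' C q y hc] at h1 h2
    simp only [clo, chi] at h1 h2
    have hne : (univ.filter (fun x => y ∈ C x ∧ q % modulus m e x = 1)).Nonempty := by
      rw [Finset.nonempty_iff_ne_empty]
      intro h
      rw [h, Finset.sum_empty] at h1
      omega
    obtain ⟨x, hx⟩ := hne
    have hx' := Finset.mem_filter.1 hx
    refine ⟨x, ⟨Finset.mem_filter.2 ⟨Finset.mem_univ _, hx'.2.2⟩, hx'.2.1⟩, ?_⟩
    rintro z ⟨hz1, hz2⟩
    by_contra hne
    have hz : z ∈ univ.filter (fun x => y ∈ C x ∧ q % modulus m e x = 1) :=
      Finset.mem_filter.2 ⟨Finset.mem_univ _, hz2, (Finset.mem_filter.1 hz1).2⟩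
    have hpair : ∑ w ∈ ({z, x} : Finset (Fin m)), mult m w * (bigL m e / modulus m e w) ≤
        ∑ w ∈ univ.filter (fun x => y ∈ C x ∧ q % modulus m e x = 1),
          mult m w * (bigL m e / modulus m e w) := by
      refine Finset.sum_le_sum_of_subset (fun w hw => ?_)
      rw [Finset.mem_insert, Finset.mem_singleton] at hw
      rcases hw with rfl | rfl
      · exact hz
      · exact hx
    rw [Finset.sum_pair hne] at hpair
    have h3 : (m + e + 2) * (bigL m e / (m + e + 2)) ≤ bigL m e := Nat.mul_div_le _ _
    have h4 := Nat.mul_le_mul_left (m + e + 2) (hpair.trans h2)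
    rw [Nat.mul_add] at h4
    have h5 := weight_eq (e := e) x
    have h6 := weight_eq (e := e) z
    have h7 := modulus_mul (e := e) x
    have h8 := modulus_mul (e := e) z
    have h9 := Nat.mul_le_mul_left (bigL m e / modulus m e x) (modulus_ge (e := e) x)
    have h10 := Nat.mul_le_mul_left (bigL m e / modulus m e z) (modulus_ge (e := e) z)
    have h11 := quot_pos (e := e) x
    have h12 : bigL m e / modulus m e x * 3 ≤ bigL m e / modulus m e x * (m + e + 3) :=
      Nat.mul_le_mul_left _ (by omega)
    have h13 : bigL m e / modulus m e z * 3 ≤ bigL m e / modulus m e z * (m + e + 3) :=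
      Nat.mul_le_mul_left _ (by omega)
    omega
  · rintro ⟨T, hT⟩
    have hs : ∀ x ∈ (Finset.univ : Finset (Fin m)), modulus m e x ≠ 0 := by
      intro x _
      have := modulus_ge (e := e) x
      omega
    obtain ⟨q, hq⟩ := Nat.chineseRemainderOfFinset (fun x : Fin m => if x ∈ T then 1 else 0)
      (modulus m e) Finset.univ hs (fun x _ y _ hxy => pairwise_coprime hxy)
    have hqx : ∀ x : Fin m, q % modulus m e x = if x ∈ T then 1 else 0 := by
      intro x
      have h1 := hq x (Finset.mem_univ x)
      have h2 := modulus_ge (e := e) x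
      have h3 : (if x ∈ T then 1 else 0) < modulus m e x := by
        split_ifs <;> omega
      exact Eq.trans h1 (Nat.mod_eq_of_lt h3)
    have hc : ∀ x : Fin m, q % modulus m e x ≤ 1 := by
      intro x
      rw [hqx x]
      split_ifs <;> omega
    refine ⟨q, ?_⟩
    rintro (x | y)
    · rw [cu_mod_var]
      simp only [clo, chi]
      refine ⟨Nat.zero_le _, ?_⟩
      calc bigL m e / modulus m e x * (q % modulus m e x)
          ≤ bigL m e / modulus m e x * 1 := Nat.mul_le_mul_left _ (hc x)
        _ = _ := Nat.mul_one _
    · rw [cu_mod' C q y hc]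
      simp only [clo, chi]
      obtain ⟨x, ⟨hx1, hx2⟩, hx3⟩ := hT y
      have h1 : univ.filter (fun x => y ∈ C x ∧ q % modulus m e x = 1) = {x} := by
        ext z
        rw [Finset.mem_filter, Finset.mem_singleton]
        constructor
        · rintro ⟨-, h2, h3⟩
          refine hx3 z ⟨?_, h2⟩
          rw [hqx z] at h3
          by_contra h4
          rw [if_neg h4] at h3
          omega
        · rintro rfl
          refine ⟨Finset.mem_univ _, hx2, ?_⟩
          rw [hqx z, if_pos hx1]
      rw [h1, Finset.sum_singleton]
      refine ⟨Nat.mul_pos (mult_pos x) (quot_pos x), ?_⟩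
      rw [Nat.le_div_iff_mul_le (by omega), Nat.mul_comm]
      exact (Nat.le_add_right _ _).trans (weight_eq (e := e) x).le

end Pool.Agent.JIT
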