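import Mathlib

/-!
Just-in-time sequencing (MP_033923_lc): the two problems, and the instance built from a family of
sets.
-/

set_option autoImplicit false

namespace Pool.Agent.JIT

open Finset

/-! ### The problems -/

section problems

variable {ι : Type} [Fintype ι] [DecidableEq ι]

/-- The total demand `D`, the sum of all demands `d i`. The models are the elements of the finite
type `ι`. -/
def total (d : ι → ℕ) : ℕ := ∑ i, d i

/-- `S` is a sequence for the demands `d`: among the positions `1, ..., D` model `i` occurs exactly
`d i` times (the values of `S` outside `1, ..., D` are irrelevant). -/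
def IsSeq (d : ι → ℕ) (S : ℕ → ι) : Prop :=
  ∀ i, ((Icc 1 (total d)).filter (fun k => S k = i)).card = d i

/-- `x_{ik}`: the number of copies of model `i` among the first `k` positions of `S`. -/
def produced (S : ℕ → ι) (i : ι) (k : ℕ) : ℕ :=
  ((Icc 1 k).filter (fun j => S j = i)).card

/-- The deviation `F_i (x_{ik} - k r_i)`, where `r_i = d_i / D`. -/
noncomputable def dev (d : ι → ℕ) (F : ι → ℝ → ℝ) (S : ℕ → ι) (i : ι) (k : ℕ) : ℝ :=
  F i ((produced S i k : ℝ) - k * ((d i : ℝ) / (total d : ℝ)))

/-- The total deviation `F(S)`: the sum of all deviations over all models `i` and all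
`k = 1, ..., D`. -/
noncomputable def totalDeviation (d : ι → ℕ) (F : ι → ℝ → ℝ) (S : ℕ → ι) : ℝ :=
  ∑ i, ∑ k ∈ Icc 1 (total d), dev d F S i k

/-- The maximum deviation `G(S)`: the maximum of all deviations over all models `i` and all
`k = 1, ..., D` (the supremum of a finite set). -/
noncomputable def maxDeviation (d : ι → ℕ) (F : ι → ℝ → ℝ) (S : ℕ → ι) : ℝ :=
  sSup {y : ℝ | ∃ i, ∃ k ∈ Icc 1 (total d), y = dev d F S i k}

/-- `S` is an optimal sequence for the total deviation problem. -/
def IsOptimalTotal (d : ι → ℕ) (F : ι → ℝ → ℝ) (S : ℕ → ι) : Prop :=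
  IsSeq d S ∧ ∀ S', IsSeq d S' → totalDeviation d F S ≤ totalDeviation d F S'

/-- `S` is an optimal sequence for the maximum deviation problem. -/
def IsOptimalMax (d : ι → ℕ) (F : ι → ℝ → ℝ) (S : ℕ → ι) : Prop :=
  IsSeq d S ∧ ∀ S', IsSeq d S' → maxDeviation d F S ≤ maxDeviation d F S'

/-- The deviation functions allowed in the problem: each `F_i` is convex with `F_i(0) = 0` and
`F_i(x) > 0` for `x ≠ 0`. -/
def Admissible (F : ι → ℝ → ℝ) : Prop :=
  ∀ i, ConvexOn ℝ Set.univ (F i) ∧ F i 0 = 0 ∧ ∀ x, x ≠ 0 → 0 < F i x

end problems

/-- The piecewise linear function `|x| + H * max (0, -x - a)`. -/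
noncomputable def hinge (a H : ℝ) (x : ℝ) : ℝ := |x| + H * max 0 (-x - a)

/-! ### Instances attached to a system of window conditions

A window condition with multiplier `u`, lower end `lo` and upper end `hi` asks for
`lo ≤ (u * q) % L ≤ hi`. -/

/-- The models of an instance: `none` is the special model, `some none` the filler, and every
index `j` of a window condition gives a lower model `some (some (Sum.inl j))` and an upper model
`some (some (Sum.inr j))`. So `K` conditions give `2 K + 2` models. -/
abbrev Model (P : Type) : Type := Option (Option (P ⊕ P))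

section window

variable (P : Type) [Fintype P]

/-- The total demand `D = (K + 1) (K + 2) L` for `K` windows modulo `L`. -/
def bigD (L : ℕ) : ℕ := (Fintype.card P + 1) * (Fintype.card P + 2) * L

variable {P}

/-- The demands: `1` for the special model, `(K + 2) L - 1` for the filler, `(K + 2) u_j` and
`(K + 2) (L - u_j)` for the lower and the upper model of the `j`-th condition. -/
def wdem (L : ℕ) (u : P → ℕ) : Model P → ℕ
  | none => 1
  | some none => (Fintype.card P + 2) * L - 1
  | some (some (Sum.inl j)) => (Fintype.card P + 2) * u j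
  | some (some (Sum.inr j)) => (Fintype.card P + 2) * (L - u j)

/-- The tolerances, multiplied by `D`. -/
def wtol (L : ℕ) (lo hi : P → ℕ) : Model P → ℕ
  | none => 0
  | some none => Fintype.card P * (Fintype.card P + 2) * L
  | some (some (Sum.inl j)) =>
      bigD P L + (Fintype.card P + 1) * (Fintype.card P + 2) * lo j - 1
  | some (some (Sum.inr j)) =>
      bigD P L - (Fintype.card P + 1) * (Fintype.card P + 2) * hi j - 1

/-- The penalty of the special model, for `n` models and total demand `D`. -/
def penS (n D : ℕ) : ℕ := D * (n * D ^ 2 + 1)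

/-- The penalty of all other models. -/
def penO (n D : ℕ) : ℕ := D * (n * D ^ 2 + D * penS n D + 1)

/-- The penalties. -/
def wpen (P : Type) (n D : ℕ) : Model P → ℕ
  | none => penS n D
  | some _ => penO n D

/-- Deviation functions with tolerances `α i / D` and penalties `H i`. -/
noncomputable def hinges {ι : Type} (D : ℕ) (α H : ι → ℕ) (i : ι) : ℝ → ℝ :=
  hinge ((α i : ℝ) / (D : ℝ)) (H i)

/-- The deviation functions of the instance. -/
noncomputable def wF (L : ℕ) (lo hi : P → ℕ) : Model P → ℝ → ℝ :=
  hinges (bigD P L) (wtol L lo hi) (wpen P (2 * Fintype.card P + 2) (bigD P L))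

end window

/-! ### The window conditions attached to a family of sets -/

/-- The multiplier `b_x = (x + 1) m!` attached to the set with index `x = 0, ..., m - 1`. -/
def mult (m : ℕ) (x : Fin m) : ℕ := ((x : ℕ) + 1) * Nat.factorial m

/-- The modulus `p_x = 1 + (m + e + 2) b_x` attached to the set with index `x`. -/
def modulus (m e : ℕ) (x : Fin m) : ℕ := 1 + (m + e + 2) * mult m x

/-- The product `L` of all moduli. -/
def bigL (m e : ℕ) : ℕ := ∏ x : Fin m, modulus m e x

section cover

variable {m e : ℕ}

/-- The multipliers of the window conditions modulo `L`, one condition for each set `C x` and one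
for each element `y`: they are `L / p_x` and the sum of `b_x (L / p_x)` over all `x` with
`y ∈ C x`. -/
def cu (C : Fin m → Finset (Fin e)) : Fin m ⊕ Fin e → ℕ
  | Sum.inl x => bigL m e / modulus m e x
  | Sum.inr y => ∑ x ∈ univ.filter (fun x => y ∈ C x), mult m x * (bigL m e / modulus m e x)

/-- The lower ends of the windows. -/
def clo : Fin m ⊕ Fin e → ℕ
  | Sum.inl _ => 0
  | Sum.inr _ => 1

/-- The upper ends of the windows. -/
def chi : Fin m ⊕ Fin e → ℕ
  | Sum.inl x => bigL m e / modulus m e x
  | Sum.inr _ => bigL m e / (m + e + 2)

/-- The demands of the instance attached to the family `C` of `m` subsets of `Fin e`. -/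
def demand (C : Fin m → Finset (Fin e)) : Model (Fin m ⊕ Fin e) → ℕ := wdem (bigL m e) (cu C)

/-- The tolerances of the instance, multiplied by `D` (they depend only on `m` and `e`). -/
def tolerance (m e : ℕ) : Model (Fin m ⊕ Fin e) → ℕ := wtol (bigL m e) clo chi

/-- The penalties of the instance (they depend only on `m` and `e`). -/
def penalty (m e : ℕ) : Model (Fin m ⊕ Fin e) → ℕ :=
  wpen (Fin m ⊕ Fin e) (2 * (m + e) + 2) ((m + e + 1) * (m + e + 2) * bigL m e)

/-- The deviation functions of the instance (they depend only on `m` and `e`); the statement of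
the main theorem gives them in terms of `tolerance` and `penalty`. -/
noncomputable def devFun (m e : ℕ) : Model (Fin m ⊕ Fin e) → ℝ → ℝ := wF (bigL m e) clo chi

/-- The family `C` of `m` subsets of `Fin e` has an exact cover: a subfamily `T` such that every
element lies in exactly one set of the subfamily. -/
def HasExactCover (C : Fin m → Finset (Fin e)) : Prop :=
  ∃ T : Finset (Fin m), ∀ y, ∃! x, x ∈ T ∧ y ∈ C x

end cover

end Pool.Agent.JIT
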