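import Pool.Agent.Lib_MP_033923_lc.Cover

/-!
Just-in-time sequencing: existence of optimal sequences and the size of the instance.
-/

set_option autoImplicit false

namespace Pool.Agent.JIT

open Finset

section exist

variable {ι : Type} [Fintype ι] [DecidableEq ι]

theorem dev_congr (d : ι → ℕ) (F : ι → ℝ → ℝ) (S S' : ℕ → ι)
    (h : ∀ k ∈ Icc 1 (total d), S k = S' k) (i : ι) (k : ℕ) (hk : k ∈ Icc 1 (total d)) :
    dev d F S i k = dev d F S' i k := by
  unfold dev
  rw [produced_congr S S' i k (fun j hj1 hj2 => h j (Finset.mem_Icc.2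
    ⟨hj1, hj2.trans (Finset.mem_Icc.1 hk).2⟩))]

theorem totalDeviation_congr (d : ι → ℕ) (F : ι → ℝ → ℝ) (S S' : ℕ → ι)
    (h : ∀ k ∈ Icc 1 (total d), S k = S' k) : totalDeviation d F S = totalDeviation d F S' := by
  unfold totalDeviation
  exact Finset.sum_congr rfl (fun i _ => Finset.sum_congr rfl (fun k hk =>
    dev_congr d F S S' h i k hk))

theorem maxDeviation_congr (d : ι → ℕ) (F : ι → ℝ → ℝ) (S S' : ℕ → ι)
    (h : ∀ k ∈ Icc 1 (total d), S k = S' k) : maxDeviation d F S = maxDeviation d F S' := by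
  unfold maxDeviation
  congr 1
  ext y
  constructor
  · rintro ⟨i, k, hk, rfl⟩
    exact ⟨i, k, hk, dev_congr d F S S' h i k hk⟩
  · rintro ⟨i, k, hk, rfl⟩
    exact ⟨i, k, hk, (dev_congr d F S S' h i k hk).symm⟩

theorem isSeq_congr (d : ι → ℕ) (S S' : ℕ → ι) (h : ∀ k ∈ Icc 1 (total d), S k = S' k)
    (hS : IsSeq d S) : IsSeq d S' := by
  intro i
  rw [← hS i]
  congr 1
  refine Finset.filter_congr (fun k hk => ?_)
  rw [h k hk]

/-- Optimal sequences exist for every cost that depends only on the positions `1, ..., D`. -/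
theorem exists_optimal (d : ι → ℕ) (Φ : (ℕ → ι) → ℝ)
    (hΦ : ∀ S S' : ℕ → ι, (∀ k ∈ Icc 1 (total d), S k = S' k) → Φ S = Φ S')
    (hne : ∃ S, IsSeq d S) : ∃ S, IsSeq d S ∧ ∀ S', IsSeq d S' → Φ S ≤ Φ S' := by
  obtain ⟨S0, hS0⟩ := hne
  classical
  -- extension of a finite word
  let ext : (Fin (total d) → ι) → ℕ → ι := fun g k =>
    if h : k - 1 < total d then g ⟨k - 1, h⟩ else S0 0
  have hext : ∀ S : ℕ → ι, ∀ k ∈ Icc 1 (total d), S k = ext (fun j => S (j + 1)) k := by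
    intro S k hk
    rw [Finset.mem_Icc] at hk
    have h1 : k - 1 < total d := by omega
    simp only [ext, dif_pos h1]
    congr 1
    omega
  have hfin : {g : Fin (total d) → ι | IsSeq d (ext g)}.Finite := Set.toFinite _
  obtain ⟨g, hg, hmin⟩ := Set.exists_min_image _ (fun g => Φ (ext g)) hfin
    ⟨fun j => S0 (j + 1), isSeq_congr d S0 _ (hext S0) hS0⟩
  refine ⟨ext g, hg, fun S' hS' => ?_⟩
  rw [hΦ S' _ (hext S')]
  exact hmin (fun j => S' (j + 1)) (isSeq_congr d S' _ (hext S') hS')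

end exist

variable {m e : ℕ}

theorem modulus_le (x : Fin m) : modulus m e x ≤ (m + e + 2) ^ (m + 3) := by
  unfold modulus mult
  have hx := x.2
  have h1 : ((x : ℕ) + 1) * Nat.factorial m ≤ (m + e + 2) * (m + e + 2) ^ m :=
    Nat.mul_le_mul (by omega)
      ((Nat.factorial_le_pow m).trans (Nat.pow_le_pow_left (by omega) m))
  have h2 := Nat.mul_le_mul_left (m + e + 2) h1
  have h3 : (m + e + 2) * ((m + e + 2) * (m + e + 2) ^ m) = (m + e + 2) ^ (m + 2) := by ring
  rw [h3] at h2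
  have h4 : (m + e + 2) ^ (m + 3) = (m + e + 2) ^ (m + 2) * (m + e + 2) := by ring
  have h5 : (m + e + 2) ^ (m + 2) * 2 ≤ (m + e + 2) ^ (m + 2) * (m + e + 2) :=
    Nat.mul_le_mul_left _ (by omega)
  have h6 : 1 ≤ (m + e + 2) ^ (m + 2) := Nat.one_le_pow _ _ (by omega)
  omega

theorem bigL_le : bigL m e ≤ (m + e + 2) ^ (m * (m + 3)) := by
  unfold bigL
  calc ∏ x : Fin m, modulus m e x ≤ ∏ _x : Fin m, (m + e + 2) ^ (m + 3) :=
        Finset.prod_le_prod' (fun x _ => modulus_le x)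
    _ = (m + e + 2) ^ (m * (m + 3)) := by
        rw [Finset.prod_const, Finset.card_univ, Fintype.card_fin, ← pow_mul, mul_comm]

theorem bigD_le : bigD (Fin m ⊕ Fin e) (bigL m e) ≤ (m + e + 2) ^ (m ^ 2 + 3 * m + 2) := by
  unfold bigD
  have hc : Fintype.card (Fin m ⊕ Fin e) = m + e := by simp
  rw [hc]
  calc (m + e + 1) * (m + e + 2) * bigL m e
      ≤ (m + e + 2) * (m + e + 2) * (m + e + 2) ^ (m * (m + 3)) :=
        Nat.mul_le_mul (Nat.mul_le_mul_right _ (by omega)) bigL_le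
    _ = (m + e + 2) ^ (m ^ 2 + 3 * m + 2) := by ring

theorem demand_pos (C : Fin m → Finset (Fin e)) (hcov : ∀ y, ∃ x, y ∈ C x)
    (i : Model (Fin m ⊕ Fin e)) : 1 ≤ demand C i := by
  have hL := bigL_pos (m := m) (e := e)
  have hu := cu_lt C
  rcases i with _ | _ | j | j
  · exact le_rfl
  · simp only [demand, wdem]
    have : 2 * 1 ≤ (Fintype.card (Fin m ⊕ Fin e) + 2) * bigL m e := Nat.mul_le_mul (by omega) hL
    omega
  · simp only [demand, wdem]
    refine Nat.mul_pos (by omega) ?_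
    rcases j with x | y
    · exact quot_pos x
    · exact clo_le C hcov (Sum.inr y)
  · simp only [demand, wdem]
    have := hu j
    exact Nat.mul_pos (by omega) (by omega)

theorem tol_le (i : Model (Fin m ⊕ Fin e)) :
    wtol (bigL m e) clo chi i ≤ 2 * bigD (Fin m ⊕ Fin e) (bigL m e) := by
  have hL := bigL_pos (m := m) (e := e)
  rcases i with _ | _ | j | j
  · exact Nat.zero_le _
  · simp only [wtol, bigD]
    have h1 := Nat.mul_le_mul_right (bigL m e) (Nat.mul_le_mul_right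
      (Fintype.card (Fin m ⊕ Fin e) + 2)
      (Nat.le_succ (Fintype.card (Fin m ⊕ Fin e))))
    simp only [Nat.succ_eq_add_one] at h1
    omega
  · simp only [wtol]
    have h1 : (Fintype.card (Fin m ⊕ Fin e) + 1) * (Fintype.card (Fin m ⊕ Fin e) + 2) * clo j
        ≤ bigD (Fin m ⊕ Fin e) (bigL m e) := by
      unfold bigD
      refine Nat.mul_le_mul_left _ ?_
      rcases j with x | y
      · exact Nat.zero_le _
      · exact hL
    omega
  · simp only [wtol]
    omega

theorem pen_le (n D : ℕ) (hD : 1 ≤ D) (i : Model (Fin m ⊕ Fin e)) :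
    wpen (Fin m ⊕ Fin e) n D i ≤ (2 * n + 3) * D ^ 5 := by
  have h1 : D ≤ D ^ 5 := Nat.le_self_pow (by omega) D
  have h2 : D ^ 3 ≤ D ^ 5 := Nat.pow_le_pow_right hD (by omega)
  have h3 : n * D ^ 3 ≤ n * D ^ 5 := Nat.mul_le_mul_left _ h2
  have e0 : (2 * n + 3) * D ^ 5 = n * D ^ 5 + n * D ^ 5 + 3 * D ^ 5 := by ring
  rcases i with _ | i
  · simp only [wpen, penS]
    have e1 : D * (n * D ^ 2 + 1) = n * D ^ 3 + D := by ring
    rw [e0, e1]
    omega
  · simp only [wpen, penO, penS]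
    have e1 : D * (n * D ^ 2 + D * (D * (n * D ^ 2 + 1)) + 1)
        = n * D ^ 3 + n * D ^ 5 + D ^ 3 + D := by ring
    rw [e0, e1]
    omega

end Pool.Agent.JIT
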