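import Pool.Agent.Lib_MP_033923_lc.Window

/-!
Just-in-time sequencing: the first entry of every optimal sequence decides whether a system of
window conditions is solvable.
-/

set_option autoImplicit false
set_option linter.unusedSectionVars false

namespace Pool.Agent.JIT

open Finset

variable {P : Type} [Fintype P] [DecidableEq P]

section window

variable (L : ℕ) (u lo hi : P → ℕ)
variable (hL : 1 ≤ L) (hu : ∀ j, u j < L) (hlo : ∀ j, lo j ≤ u j)
  (hhi : ∀ j, (Fintype.card P + 1) * hi j < L)

include hL hu

theorem total_eq : total (wdem L u) = bigD P L := total_wdem L u hL (fun j => (hu j).le)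

include hlo hhi

theorem special_needed {t : ℕ} (h1 : 1 ≤ t) (h2 : t ≤ bigD P L) :
    need (bigD P L) (wdem L u) (wtol L lo hi) none t = 1 := by
  unfold need
  simp only [wdem, wtol, one_mul, Nat.sub_zero]
  exact Nat.div_eq_of_lt_le (by omega) (by omega)

/-- A sequence respecting all tolerances except possibly that of the special model. -/
theorem exists_seq : ∃ S, IsSeq (wdem L u) S ∧
    ∀ i, i ≠ none → ∀ k ∈ Icc 1 (total (wdem L u)), Good (wdem L u) (wtol L lo hi) S i k := by
  have hD := one_le_bigD (P := P) L hL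
  have hT := total_eq L u hL hu
  obtain ⟨S, hS1, hS2⟩ := exists_schedule
    (fun i t => if i = none then 0 else need (bigD P L) (wdem L u) (wtol L lo hi) i t)
    (fun i t => by
      split_ifs
      · exact le_rfl
      · exact need_mono _ hD _ _ i t)
    (bigD P L) (fun t _ => by
      rw [Fintype.sum_option]
      simp only [if_true, reduceCtorEq, if_false, Nat.zero_add]
      exact (sum_need L u lo hi hL hu hlo hhi t).1) (wdem L u) hT (fun i => by
      split_ifs
      · exact Nat.zero_le _
      · exact need_top _ hD _ _ i)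
  refine ⟨S, fun i => ?_, fun i hi k hk => ?_⟩
  · rw [hT]
    exact hS1 i
  · rw [hT, Finset.mem_Icc] at hk
    have := hS2 k hk.2 i
    rw [if_neg hi] at this
    unfold Good
    rw [hT]
    exact need_le _ hD _ _ i k _ this

/-- If the window conditions have no solution then a sequence respecting all tolerances exists. -/
theorem exists_seq_all (hno : ¬ ∃ q, Sol L u lo hi q) : ∃ S, IsSeq (wdem L u) S ∧
    ∀ i, ∀ k ∈ Icc 1 (total (wdem L u)), Good (wdem L u) (wtol L lo hi) S i k := by
  have hD := one_le_bigD (P := P) L hL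
  have hT := total_eq L u hL hu
  obtain ⟨S, hS1, hS2⟩ := exists_schedule
    (fun i t => need (bigD P L) (wdem L u) (wtol L lo hi) i t)
    (fun i t => need_mono _ hD _ _ i t)
    (bigD P L) (fun t ht => by
      rw [Fintype.sum_option]
      obtain ⟨h1, h2⟩ := sum_need L u lo hi hL hu hlo hhi t
      rcases Nat.eq_zero_or_pos t with rfl | ht0
      · have h3 : need (bigD P L) (wdem L u) (wtol L lo hi) none 0 = 0 := by
          unfold need
          simp only [wdem, wtol]
          exact Nat.div_eq_of_lt (by omega)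
        rw [h3]
        omega
      · have h3 := special_needed L u lo hi hL hu hlo hhi ht0 ht.le
        have h4 : ∑ i : Option (P ⊕ P), need (bigD P L) (wdem L u) (wtol L lo hi) (some i) t ≠ t :=
          fun h => hno (h2 ht0 h)
        rw [h3]
        omega) (wdem L u) hT (fun i => need_top _ hD _ _ i)
  refine ⟨S, fun i => ?_, fun i k hk => ?_⟩
  · rw [hT]
    exact hS1 i
  · rw [hT, Finset.mem_Icc] at hk
    have := hS2 k hk.2 i
    unfold Good
    rw [hT]
    exact need_le _ hD _ _ i k _ this

/-- If the window conditions have a solution then no sequence respecting the tolerances of the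
other models starts with the special model. -/
theorem not_first (q : ℕ) (hq : Sol L u lo hi q) (S : ℕ → Model P)
    (hg : ∀ i, i ≠ none → ∀ k ∈ Icc 1 (total (wdem L u)), Good (wdem L u) (wtol L lo hi) S i k) :
    S 1 ≠ none := by
  have hD := one_le_bigD (P := P) L hL
  have hT := total_eq L u hL hu
  rw [hT] at hg
  -- a solution between one and `L`
  obtain ⟨q, hq1, hqL, hq⟩ : ∃ q, 1 ≤ q ∧ q ≤ L ∧ Sol L u lo hi q := by
    have key : ∀ a, (∀ j, (u j * a) % L = (u j * q) % L) → Sol L u lo hi a := by
      intro a ha j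
      rw [ha j]
      exact hq j
    rcases Nat.eq_zero_or_pos (q % L) with h0 | h0
    · refine ⟨L, hL, le_rfl, key L (fun j => ?_)⟩
      rw [Nat.mul_mod_left, Nat.mul_mod, h0, Nat.mul_zero, Nat.zero_mod]
    · refine ⟨q % L, h0, (Nat.mod_lt _ hL).le, key _ (fun j => ?_)⟩
      rw [Nat.mul_mod_mod]
  obtain ⟨K, hK⟩ : ∃ K, Fintype.card P = K := ⟨_, rfl⟩
  have ht1 : 1 ≤ (K + 1) * q := Nat.mul_pos (by omega) hq1
  have htD : (K + 1) * q ≤ bigD P L := by
    unfold bigD
    rw [hK]
    calc (K + 1) * q ≤ (K + 1) * L := Nat.mul_le_mul_left _ hqL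
      _ ≤ (K + 2) * ((K + 1) * L) := Nat.le_mul_of_pos_left _ (by omega)
      _ = (K + 1) * (K + 2) * L := by ring
  have hk : (K + 1) * q ∈ Icc 1 (bigD P L) := Finset.mem_Icc.2 ⟨ht1, htD⟩
  -- the filler
  have hfill : q ≤ produced S (some none) ((K + 1) * q) := by
    have h1 := hg (some none) (by simp) _ hk
    unfold Good at h1
    rw [hT] at h1
    obtain ⟨x, hx⟩ : ∃ x, produced S (some none) ((K + 1) * q) = x := ⟨_, rfl⟩
    rw [hx] at h1 ⊢
    simp only [wdem, wtol, bigD, hK] at h1
    have hRL : 1 ≤ (K + 2) * L := Nat.mul_pos (by omega) hL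
    have e1 : ((K + 2) * L - 1) * ((K + 1) * q) + (K + 1) * q = (K + 2) * L * ((K + 1) * q) := by
      rw [Nat.sub_mul, one_mul]
      refine Nat.sub_add_cancel ?_
      exact Nat.le_mul_of_pos_left _ hRL
    have e2 : (K + 1) * q < (K + 2) * L := by
      calc (K + 1) * q ≤ (K + 1) * L := Nat.mul_le_mul_left _ hqL
        _ < (K + 2) * L := Nat.mul_lt_mul_of_pos_right (by omega) hL
    have e3 : ((K + 1) * (K + 2) * L) * q < ((K + 1) * (K + 2) * L) * (x + 1) := by
      have e4 : ((K + 1) * (K + 2) * L) * q = (K + 2) * L * ((K + 1) * q) := by ring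
      have e5 : ((K + 1) * (K + 2) * L) * (x + 1)
          = (K + 1) * (K + 2) * L * x + K * (K + 2) * L + (K + 2) * L := by ring
      rw [e4, e5]
      omega
    have := Nat.lt_of_mul_lt_mul_left e3
    omega
  -- the pairs
  have hpair : ∀ j, q ≤ produced S (some (some (Sum.inl j))) ((K + 1) * q)
      + produced S (some (some (Sum.inr j))) ((K + 1) * q) := by
    intro j
    have h1 := hg (some (some (Sum.inl j))) (by simp) _ hk
    have h2 := hg (some (some (Sum.inr j))) (by simp) _ hk
    unfold Good at h1 h2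
    rw [hT] at h1 h2
    obtain ⟨x, hx⟩ : ∃ x, produced S (some (some (Sum.inl j))) ((K + 1) * q) = x := ⟨_, rfl⟩
    obtain ⟨y, hy⟩ : ∃ y, produced S (some (some (Sum.inr j))) ((K + 1) * q) = y := ⟨_, rfl⟩
    rw [hx] at h1 ⊢
    rw [hy] at h2 ⊢
    have hu' := hu j
    have hhi' := hhi j
    have hq' := hq j
    simp only [wdem, wtol, bigD, hK] at h1 h2
    rw [hK] at hhi'
    obtain ⟨v, hv⟩ : ∃ v, u j = v := ⟨_, rfl⟩
    obtain ⟨l, hl⟩ : ∃ l, lo j = l := ⟨_, rfl⟩
    obtain ⟨h, hh⟩ : ∃ h, hi j = h := ⟨_, rfl⟩
    rw [hv] at h1 h2 hu' hq'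
    rw [hl] at h1 hq'
    rw [hh] at h2 hhi' hq'
    have hLp : 1 ≤ (K + 1) * (K + 2) * L := Nat.mul_pos (Nat.mul_pos (by omega) (by omega)) hL
    have hmod := Nat.div_add_mod (v * q) L
    obtain ⟨A, hA⟩ : ∃ A, v * q / L = A := ⟨_, rfl⟩
    obtain ⟨r, hr⟩ : ∃ r, v * q % L = r := ⟨_, rfl⟩
    rw [hA, hr] at hmod
    rw [hr] at hq'
    have hRN : 0 < (K + 1) * (K + 2) := Nat.mul_pos (by omega) (by omega)
    -- lower model
    have f1 : v * q < L * (x + 1) + l := by
      have e1 : (K + 1) * (K + 2) * (v * q) < (K + 1) * (K + 2) * (L * (x + 1) + l) := by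
        have e2 : (K + 1) * (K + 2) * (v * q) = (K + 2) * v * ((K + 1) * q) := by ring
        have e3 : (K + 1) * (K + 2) * (L * (x + 1) + l)
            = (K + 1) * (K + 2) * L * x + (K + 1) * (K + 2) * L + (K + 1) * (K + 2) * l := by ring
        rw [e2, e3]
        omega
      exact Nat.lt_of_mul_lt_mul_left e1
    -- upper model
    have f2 : (L - v) * q + h < L * (y + 1) := by
      have e1 : (K + 1) * (K + 2) * ((L - v) * q + h) < (K + 1) * (K + 2) * (L * (y + 1)) := by
        have e2 : (K + 1) * (K + 2) * ((L - v) * q + h)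
            = (K + 2) * (L - v) * ((K + 1) * q) + (K + 1) * (K + 2) * h := by ring
        have e3 : (K + 1) * (K + 2) * (L * (y + 1))
            = (K + 1) * (K + 2) * L * y + (K + 1) * (K + 2) * L := by ring
        have e4 : (K + 1) * (K + 2) * h < (K + 1) * (K + 2) * L := by
          have : h < L := by
            have : h ≤ (K + 1) * h := Nat.le_mul_of_pos_left _ (by omega)
            omega
          exact Nat.mul_lt_mul_of_pos_left this hRN
        rw [e2, e3]
        omega
      exact Nat.lt_of_mul_lt_mul_left e1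
    have f3 : L * A < L * (x + 1) := by omega
    have f4 : A < x + 1 := Nat.lt_of_mul_lt_mul_left f3
    have f5 : L * q < L * (y + 1 + A) := by
      have e1 : (L - v) * q + v * q = L * q := by
        rw [← Nat.add_mul, Nat.sub_add_cancel hu'.le]
      rw [Nat.mul_add L (y + 1) A]
      omega
    have f6 : q < y + 1 + A := Nat.lt_of_mul_lt_mul_left f5
    omega
  -- the sum
  have hs := sum_produced S ((K + 1) * q)
  rw [Fintype.sum_option, Fintype.sum_option, Fintype.sum_sum_type,
    ← Finset.sum_add_distrib] at hs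
  have h3 : ∑ _j : P, q ≤ ∑ j, (produced S (some (some (Sum.inl j))) ((K + 1) * q)
      + produced S (some (some (Sum.inr j))) ((K + 1) * q)) :=
    Finset.sum_le_sum (fun j _ => hpair j)
  rw [Finset.sum_const, smul_eq_mul, Finset.card_univ, hK] at h3
  have e1 : (K + 1) * q = K * q + q := by ring
  have h4 : produced S none ((K + 1) * q) = 0 := by
    have := hs
    omega
  intro hS
  have h5 : produced S none 1 = 1 := by
    have := produced_succ S none 0
    rw [produced_zero, Nat.zero_add, if_pos hS] at this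
    exact this
  have h6 := produced_mono S none ht1
  omega

/-- Main theorem for window systems, for any cost function between the largest deviation and the
sum of all deviations. -/
theorem window_main (Φ : (ℕ → Model P) → ℝ)
    (hΦ : Between (wdem L u) (wtol L lo hi) (wpen P (2 * Fintype.card P + 2) (bigD P L)) Φ)
    (S : ℕ → Model P) (hopt : ∀ S', IsSeq (wdem L u) S' → Φ S ≤ Φ S') :
    S 1 = none ↔ ¬ ∃ q, Sol L u lo hi q := by
  have hT := total_eq L u hL hu
  have hn : Fintype.card (Model P) = 2 * Fintype.card P + 2 := card_model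
  constructor
  · rintro h ⟨q, hq⟩
    obtain ⟨S', hS', hg⟩ := exists_seq L u lo hi hL hu hlo hhi
    refine not_first L u lo hi hL hu hlo hhi q hq S ?_ h
    refine good_of_opt (wdem L u) (wtol L lo hi) _ none Φ hΦ rfl ?_ ?_ S' hg S (hopt S' hS')
    · rw [hT, hn]
      rfl
    · rintro (_ | i) hi
      · exact absurd rfl hi
      · rw [hT, hn]
        rfl
  · intro hno
    obtain ⟨S', hS', hg⟩ := exists_seq_all L u lo hi hL hu hlo hhi hno
    refine first_of_opt (wdem L u) (wtol L lo hi) _ none Φ hΦ rfl rfl ?_ S' hg S (hopt S' hS')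
    rw [hT, hn]
    rfl

/-- The first entry of an optimal sequence for the total deviation problem. -/
theorem window_total (S : ℕ → Model P) (hS : IsOptimalTotal (wdem L u) (wF L lo hi) S) :
    S 1 = none ↔ ¬ ∃ q, Sol L u lo hi q := by
  have hT := total_eq L u hL hu
  have hb := between_total (wdem L u) (wtol L lo hi) (wpen P (2 * Fintype.card P + 2) (bigD P L))
  rw [hT] at hb
  exact window_main L u lo hi hL hu hlo hhi _ hb S hS.2

/-- The first entry of an optimal sequence for the maximum deviation problem. -/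
theorem window_max (S : ℕ → Model P) (hS : IsOptimalMax (wdem L u) (wF L lo hi) S) :
    S 1 = none ↔ ¬ ∃ q, Sol L u lo hi q := by
  have hT := total_eq L u hL hu
  have hD := one_le_bigD (P := P) L hL
  have hb := between_max (wdem L u) (wtol L lo hi) (wpen P (2 * Fintype.card P + 2) (bigD P L))
    ⟨none⟩ (by rw [hT]; exact hD)
  rw [hT] at hb
  exact window_main L u lo hi hL hu hlo hhi _ hb S hS.2

end window

end Pool.Agent.JIT
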