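import Pool.Agent.Lib_MP_033923_lc.Defs

/-!
Just-in-time sequencing: the backward scheduling lemma.
-/

set_option autoImplicit false

namespace Pool.Agent.JIT

open Finset

variable {ι : Type} [Fintype ι] [DecidableEq ι]

/-! ### Basic facts on `produced` -/

omit [Fintype ι] in
theorem produced_zero (S : ℕ → ι) (i : ι) : produced S i 0 = 0 := by
  simp [produced]

omit [Fintype ι] in
theorem produced_succ (S : ℕ → ι) (i : ι) (k : ℕ) :
    produced S i (k + 1) = produced S i k + (if S (k + 1) = i then 1 else 0) := by
  unfold produced
  rw [← Finset.insert_Icc_right_eq_Icc_add_one (by omega), Finset.filter_insert]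
  split_ifs with h
  · rw [Finset.card_insert_of_notMem (by simp)]
  · simp

omit [Fintype ι] in
theorem produced_congr (S S' : ℕ → ι) (i : ι) (k : ℕ) (h : ∀ j, 1 ≤ j → j ≤ k → S j = S' j) :
    produced S i k = produced S' i k := by
  unfold produced
  congr 1
  refine Finset.filter_congr (fun j hj => ?_)
  rw [Finset.mem_Icc] at hj
  rw [h j hj.1 hj.2]

theorem sum_produced (S : ℕ → ι) (k : ℕ) : ∑ i, produced S i k = k := by
  induction k with
  | zero => simp [produced_zero]
  | succ k ih =>
    simp only [produced_succ, Finset.sum_add_distrib, ih]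
    simp

omit [Fintype ι] in
theorem produced_le (S : ℕ → ι) (i : ι) (k : ℕ) : produced S i k ≤ k := by
  unfold produced
  refine (Finset.card_filter_le _ _).trans ?_
  simp

omit [Fintype ι] in
theorem produced_mono (S : ℕ → ι) (i : ι) {k l : ℕ} (h : k ≤ l) :
    produced S i k ≤ produced S i l := by
  unfold produced
  exact Finset.card_le_card (Finset.filter_subset_filter _ (Finset.Icc_subset_Icc_right h))

/-- The backward scheduling lemma. -/
theorem exists_schedule [Nonempty ι] (need : ι → ℕ → ℕ) (hmono : ∀ i t, need i t ≤ need i (t + 1))
    (T : ℕ) (hsum : ∀ t < T, ∑ i, need i t ≤ t) (v : ι → ℕ) (hv : ∑ i, v i = T)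
    (hneed : ∀ i, need i T ≤ v i) :
    ∃ S : ℕ → ι, (∀ i, produced S i T = v i) ∧ ∀ t ≤ T, ∀ i, need i t ≤ produced S i t := by
  induction T generalizing v with
  | zero =>
    refine ⟨fun _ => Classical.arbitrary ι, fun i => ?_, fun t ht i => ?_⟩
    · have : v i ≤ 0 := by
        rw [← hv]
        exact Finset.single_le_sum (fun j _ => Nat.zero_le (v j)) (Finset.mem_univ i)
      rw [produced_zero]
      omega
    · have : v i ≤ 0 := by
        rw [← hv]
        exact Finset.single_le_sum (fun j _ => Nat.zero_le (v j)) (Finset.mem_univ i)
      have h2 := hneed i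
      have : t = 0 := by omega
      subst this
      omega
  | succ T ih =>
    have h1 : ∑ i, need i T < ∑ i, v i := by
      have := hsum T (by omega)
      omega
    obtain ⟨i, -, hi⟩ := Finset.exists_lt_of_sum_lt h1
    have hvi : 1 ≤ v i := by omega
    obtain ⟨S, hS, hS2⟩ := ih (fun t ht => hsum t (by omega)) (Function.update v i (v i - 1)) (by
      rw [Finset.sum_update_of_mem (Finset.mem_univ i)]
      have := Finset.sum_erase_add (s := Finset.univ) (f := v) (a := i) (Finset.mem_univ i)
      rw [Finset.sdiff_singleton_eq_erase]
      omega) (by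
      intro j
      rcases eq_or_ne j i with rfl | hj
      · rw [Function.update_self]
        omega
      · rw [Function.update_of_ne hj]
        exact (hmono j T).trans (hneed j))
    have hpr : ∀ t ≤ T, ∀ j, produced (Function.update S (T + 1) i) j t = produced S j t := by
      intro t ht j
      refine produced_congr _ _ _ _ (fun l _ hl => ?_)
      rw [Function.update_of_ne (by omega)]
    have hT : ∀ j, produced (Function.update S (T + 1) i) j (T + 1) = v j := by
      intro j
      rw [produced_succ, hpr T le_rfl j, hS j, Function.update_self]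
      rcases eq_or_ne j i with rfl | hj
      · rw [Function.update_self, if_pos rfl]
        omega
      · rw [Function.update_of_ne hj, if_neg (Ne.symm hj)]
        omega
    refine ⟨Function.update S (T + 1) i, hT, fun t ht j => ?_⟩
    rcases Nat.lt_or_ge T t with h | h
    · have : t = T + 1 := by omega
      subst this
      rw [hT j]
      exact hneed j
    · rw [hpr t h j]
      exact hS2 t h j

end Pool.Agent.JIT
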