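import Pool.Agent.Lib_MP_033923_lc.Cost

/-!
Just-in-time sequencing: systems of simultaneous window conditions modulo `L` are encoded in the
first entry of optimal sequences.
-/

set_option autoImplicit false

namespace Pool.Agent.JIT

open Finset

variable {P : Type} [Fintype P]

theorem card_model : Fintype.card (Model P) = 2 * Fintype.card P + 2 := by
  simp only [Fintype.card_option, Fintype.card_sum]
  ring

theorem total_wdem (L : ℕ) (u : P → ℕ) (hL : 1 ≤ L) (hu : ∀ j, u j ≤ L) :
    total (wdem L u) = bigD P L := by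
  have h1 : ∑ j : P, (Fintype.card P + 2) * u j + ∑ j : P, (Fintype.card P + 2) * (L - u j)
      = Fintype.card P * ((Fintype.card P + 2) * L) := by
    rw [← Finset.sum_add_distrib]
    rw [Finset.sum_congr rfl (fun j _ => by
      rw [← Nat.mul_add, Nat.add_sub_cancel' (hu j)] :
      ∀ j ∈ (Finset.univ : Finset P), (Fintype.card P + 2) * u j + (Fintype.card P + 2) * (L - u j)
        = (Fintype.card P + 2) * L)]
    rw [Finset.sum_const, smul_eq_mul, Finset.card_univ]
  have h2 : 1 ≤ (Fintype.card P + 2) * L := Nat.mul_pos (by omega) hL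
  unfold total
  rw [Fintype.sum_option, Fintype.sum_option, Fintype.sum_sum_type]
  simp only [wdem]
  rw [h1]
  have h3 : bigD P L = Fintype.card P * ((Fintype.card P + 2) * L) + (Fintype.card P + 2) * L := by
    unfold bigD
    ring
  omega

/-- the least number of copies respecting the tolerance -/
def need (D : ℕ) {ι : Type} (d α : ι → ℕ) (i : ι) (t : ℕ) : ℕ := (d i * t - α i + (D - 1)) / D

section need

variable {ι : Type} (D : ℕ) (hD : 1 ≤ D) (d α : ι → ℕ)

include hD

theorem need_le (i : ι) (t x : ℕ) (h : need D d α i t ≤ x) : d i * t ≤ D * x + α i := by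
  unfold need at h
  have h1 : d i * t - α i + (D - 1) < D * (x + 1) := by
    rw [Nat.div_le_iff_le_mul_add_pred (by omega)] at h
    rw [Nat.mul_add]
    omega
  rw [Nat.mul_add] at h1
  omega

theorem need_mono (i : ι) (t : ℕ) : need D d α i t ≤ need D d α i (t + 1) := by
  unfold need
  have : d i * t ≤ d i * (t + 1) := Nat.mul_le_mul_left _ (by omega)
  exact Nat.div_le_div_right (by omega)

theorem need_top (i : ι) : need D d α i D ≤ d i := by
  unfold need
  rw [Nat.div_le_iff_le_mul_add_pred (by omega)]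
  rw [mul_comm (d i) D]
  omega

/-- either nothing is needed or the number needed is at most one more than the exact bound -/
theorem need_cases (i : ι) (t : ℕ) : need D d α i t = 0 ∨
    (α i < d i * t ∧ D * need D d α i t + α i ≤ d i * t + (D - 1)) := by
  rcases Nat.lt_or_ge (α i) (d i * t) with h | h
  · right
    refine ⟨h, ?_⟩
    have : D * need D d α i t ≤ d i * t - α i + (D - 1) := Nat.mul_div_le _ _
    omega
  · left
    unfold need
    rw [Nat.sub_eq_zero_of_le h, Nat.zero_add]
    exact Nat.div_eq_of_lt (by omega)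

end need

section window

variable (L : ℕ) (u lo hi : P → ℕ)

/-- All window conditions hold for the multiplier `q`. -/
def Sol (q : ℕ) : Prop := ∀ j, lo j ≤ (u j * q) % L ∧ (u j * q) % L ≤ hi j

variable (hL : 1 ≤ L) (hu : ∀ j, u j < L) (hlo : ∀ j, lo j ≤ u j)
  (hhi : ∀ j, (Fintype.card P + 1) * hi j < L)

include hL

theorem one_le_bigD : 1 ≤ bigD P L := by
  unfold bigD
  exact Nat.mul_pos (Nat.mul_pos (by omega) (by omega)) hL

theorem filler_need (t : ℕ) :
    (Fintype.card P + 1) * need (bigD P L) (wdem L u) (wtol L lo hi) (some none) t ≤ t := by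
  have hD := one_le_bigD (P := P) L hL
  rcases need_cases (bigD P L) hD (wdem L u) (wtol L lo hi) (some none) t with h | ⟨h1, h2⟩
  · rw [h, Nat.mul_zero]
    exact Nat.zero_le _
  · set y := need (bigD P L) (wdem L u) (wtol L lo hi) (some none) t with hy
    clear_value y
    simp only [wdem, wtol] at h1 h2
    set K := Fintype.card P with hK
    clear_value K
    have hRL : 1 ≤ (K + 2) * L := Nat.mul_pos (by omega) hL
    have hDe : bigD P L = K * ((K + 2) * L) + (K + 2) * L := by
      unfold bigD
      rw [← hK]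
      ring
    rw [hDe] at h2 hD
    obtain ⟨M, hM⟩ : ∃ M, (K + 2) * L = M := ⟨_, rfl⟩
    have e1 : K * (K + 2) * L = K * M := by rw [← hM]; ring
    rw [e1] at h2
    rw [hM] at h2 hRL hD
    have h3 : (M - 1) * t ≤ M * t := Nat.mul_le_mul_right _ (by omega)
    have h4 : M * ((K + 1) * y) < M * (t + 1) := by
      have e2 : M * ((K + 1) * y) = (K * M + M) * y := by ring
      rw [e2, Nat.mul_add]
      omega
    have := Nat.lt_of_mul_lt_mul_left h4
    omega

include hu hlo hhi

theorem pair_need (j : P) (t : ℕ) :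
    (Fintype.card P + 1) *
      (need (bigD P L) (wdem L u) (wtol L lo hi) (some (some (Sum.inl j))) t +
       need (bigD P L) (wdem L u) (wtol L lo hi) (some (some (Sum.inr j))) t) ≤ t ∧
    ∀ q, 1 ≤ q → t = (Fintype.card P + 1) * q →
      need (bigD P L) (wdem L u) (wtol L lo hi) (some (some (Sum.inl j))) t +
       need (bigD P L) (wdem L u) (wtol L lo hi) (some (some (Sum.inr j))) t = q →
      lo j ≤ (u j * q) % L ∧ (u j * q) % L ≤ hi j := by
  have hD := one_le_bigD (P := P) L hL
  have c1 := need_cases (bigD P L) hD (wdem L u) (wtol L lo hi) (some (some (Sum.inl j))) t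
  have c2 := need_cases (bigD P L) hD (wdem L u) (wtol L lo hi) (some (some (Sum.inr j))) t
  obtain ⟨y1, hy1⟩ : ∃ y, need (bigD P L) (wdem L u) (wtol L lo hi) (some (some (Sum.inl j))) t = y :=
    ⟨_, rfl⟩
  obtain ⟨y2, hy2⟩ : ∃ y, need (bigD P L) (wdem L u) (wtol L lo hi) (some (some (Sum.inr j))) t = y :=
    ⟨_, rfl⟩
  rw [hy1] at c1 ⊢
  rw [hy2] at c2 ⊢
  simp only [wdem, wtol] at c1 c2
  have hu' := hu j
  have hlo' := hlo j
  have hhi' := hhi j
  have hDe : bigD P L = (Fintype.card P + 1) * (Fintype.card P + 2) * L := rfl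
  obtain ⟨K, hK⟩ : ∃ K, Fintype.card P = K := ⟨_, rfl⟩
  obtain ⟨v, hv⟩ : ∃ v, u j = v := ⟨_, rfl⟩
  obtain ⟨l, hl⟩ : ∃ l, lo j = l := ⟨_, rfl⟩
  obtain ⟨h, hh⟩ : ∃ h, hi j = h := ⟨_, rfl⟩
  obtain ⟨D, hDD⟩ : ∃ D, bigD P L = D := ⟨_, rfl⟩
  rw [hDD] at hD c1 c2 hDe
  rw [hK] at c1 c2 hDe hhi' ⊢
  rw [hv] at c1 c2 hu' hlo' ⊢
  rw [hl] at c1 hlo' ⊢
  rw [hh] at c2 hhi' ⊢
  clear hy1 hy2 hK hv hl hh hDD
  -- the two key inequalities
  have k1 : (y1 = 0) ∨ (K + 1) * (L * y1 + l) ≤ v * t := by
    rcases c1 with c1 | ⟨c1, c1'⟩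
    · exact Or.inl c1
    · right
      have e1 : (K + 2) * ((K + 1) * (L * y1 + l)) ≤ (K + 2) * (v * t) := by
        have e2 : (K + 2) * ((K + 1) * (L * y1 + l)) = D * y1 + (K + 1) * (K + 2) * l := by
          rw [hDe]; ring
        have e3 : (K + 2) * (v * t) = (K + 2) * v * t := by ring
        rw [e2, e3]
        omega
      exact Nat.le_of_mul_le_mul_left e1 (by omega)
  have k2 : (K + 1) * (L * y2) + v * t ≤ L * t + (K + 1) * h := by
    have e0 : v * t ≤ L * t := Nat.mul_le_mul_right _ hu'.le
    rcases c2 with c2 | ⟨c2, c2'⟩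
    · rw [c2, Nat.mul_zero, Nat.mul_zero, Nat.zero_add]
      omega
    · have e1 : (K + 2) * ((K + 1) * (L * y2)) ≤ (K + 2) * ((L - v) * t + (K + 1) * h) := by
        have e2 : (K + 2) * ((K + 1) * (L * y2)) = D * y2 := by
          rw [hDe]; ring
        have e3 : (K + 2) * ((L - v) * t + (K + 1) * h)
            = (K + 2) * (L - v) * t + (K + 1) * (K + 2) * h := by ring
        have e4 : (K + 1) * (K + 2) * h < D := by
          rw [hDe]
          have : h < L := by
            have : h ≤ (K + 1) * h := Nat.le_mul_of_pos_left _ (by omega)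
            omega
          exact Nat.mul_lt_mul_of_pos_left this (Nat.mul_pos (by omega) (by omega))
        rw [e2, e3]
        omega
      have e5 := Nat.le_of_mul_le_mul_left e1 (by omega)
      rw [Nat.sub_mul] at e5
      omega
  constructor
  · have h4 : L * ((K + 1) * (y1 + y2)) < L * (t + 1) := by
      have e1 : L * ((K + 1) * (y1 + y2)) = (K + 1) * (L * y1) + (K + 1) * (L * y2) := by ring
      rw [e1, Nat.mul_add]
      rcases k1 with k1 | k1
      · rw [k1, Nat.mul_zero, Nat.mul_zero]
        omega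
      · rw [Nat.mul_add] at k1
        omega
    have := Nat.lt_of_mul_lt_mul_left h4
    omega
  · intro q hq ht hyq
    have k3 : L * y1 + l ≤ v * q := by
      rcases k1 with k1 | k1
      · rw [k1, Nat.mul_zero, Nat.zero_add]
        exact hlo'.trans (Nat.le_mul_of_pos_right _ hq)
      · rw [ht] at k1
        have e1 : v * ((K + 1) * q) = (K + 1) * (v * q) := by ring
        rw [e1] at k1
        exact Nat.le_of_mul_le_mul_left k1 (by omega)
    have k4 : v * q ≤ L * y1 + h := by
      rw [ht, ← hyq] at k2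
      have e1 : (K + 1) * (v * (y1 + y2)) ≤ (K + 1) * (L * y1 + h) := by
        have e2 : v * ((K + 1) * (y1 + y2)) = (K + 1) * (v * (y1 + y2)) := by ring
        have e3 : L * ((K + 1) * (y1 + y2)) = (K + 1) * (L * y1) + (K + 1) * (L * y2) := by ring
        rw [e2, e3] at k2
        rw [Nat.mul_add (K + 1) (L * y1) h]
        omega
      rw [← hyq]
      exact Nat.le_of_mul_le_mul_left e1 (by omega)
    have hhL : h < L := by
      have : h ≤ (K + 1) * h := Nat.le_mul_of_pos_left _ (by omega)
      omega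
    have k5 : (v * q) % L = v * q - L * y1 := by
      have e1 : v * q = (v * q - L * y1) + L * y1 := by omega
      conv_lhs => rw [e1]
      rw [Nat.add_mul_mod_self_left]
      exact Nat.mod_eq_of_lt (by omega)
    rw [k5]
    omega

/-- The sum of the needs of all models but the special one. -/
theorem sum_need (t : ℕ) :
    ∑ i : Option (P ⊕ P), need (bigD P L) (wdem L u) (wtol L lo hi) (some i) t ≤ t ∧
    (1 ≤ t → ∑ i : Option (P ⊕ P), need (bigD P L) (wdem L u) (wtol L lo hi) (some i) t = t →
      ∃ q, Sol L u lo hi q) := by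
  have hf := filler_need L u lo hi hL t
  have hp := fun j => pair_need L u lo hi hL hu hlo hhi j t
  rw [Fintype.sum_option, Fintype.sum_sum_type, ← Finset.sum_add_distrib]
  set y0 := need (bigD P L) (wdem L u) (wtol L lo hi) (some none) t with hy0
  clear_value y0
  set w : P → ℕ := fun j =>
      need (bigD P L) (wdem L u) (wtol L lo hi) (some (some (Sum.inl j))) t +
       need (bigD P L) (wdem L u) (wtol L lo hi) (some (some (Sum.inr j))) t with hw
  have hp1 : ∀ j, (Fintype.card P + 1) * w j ≤ t := fun j => (hp j).1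
  have hsum : ∑ j, (Fintype.card P + 1) * w j ≤ Fintype.card P * t := by
    refine (Finset.sum_le_sum (fun j _ => hp1 j)).trans (le_of_eq ?_)
    rw [Finset.sum_const, smul_eq_mul, Finset.card_univ]
  rw [← Finset.mul_sum] at hsum
  have hle : y0 + ∑ j, w j ≤ t := by
    have e1 : (Fintype.card P + 1) * t = Fintype.card P * t + t := by ring
    have e2 : (Fintype.card P + 1) * (y0 + ∑ j, w j) ≤ (Fintype.card P + 1) * t := by
      rw [e1, Nat.mul_add]
      omega
    exact Nat.le_of_mul_le_mul_left e2 (by omega)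
  refine ⟨hle, fun ht heq => ?_⟩
  have e1 : (Fintype.card P + 1) * t = Fintype.card P * t + t := by ring
  have e2 : (Fintype.card P + 1) * y0 + (Fintype.card P + 1) * ∑ j, w j
      = (Fintype.card P + 1) * t := by rw [← Nat.mul_add, heq]
  have e3 : (Fintype.card P + 1) * y0 = t := by omega
  have e4 : (Fintype.card P + 1) * ∑ j, w j = Fintype.card P * t := by omega
  have e5 : ∀ j, (Fintype.card P + 1) * w j = t := by
    intro j
    have h1 : ∑ j, (Fintype.card P + 1) * w j = ∑ _j : P, t := by
      rw [← Finset.mul_sum, e4, Finset.sum_const, smul_eq_mul, Finset.card_univ]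
    exact (Finset.sum_eq_sum_iff_of_le (fun j _ => hp1 j)).1 h1 j (Finset.mem_univ j)
  have hq : 1 ≤ y0 := by
    rcases Nat.eq_zero_or_pos y0 with h | h
    · rw [h, Nat.mul_zero] at e3
      omega
    · exact h
  refine ⟨y0, fun j => (hp j).2 y0 hq e3.symm ?_⟩
  have : (Fintype.card P + 1) * w j = (Fintype.card P + 1) * y0 := by rw [e5 j, e3]
  exact Nat.eq_of_mul_eq_mul_left (by omega) this

end window

end Pool.Agent.JIT
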